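import Mathlib

/-!
# Definitions for MP_74738e_an

Separated sets, topological entropy at a scale and the upper metric mean dimension of a
self-map of a metric space, exactly as in the problem file.
-/

namespace Pool.MP74738e

open Filter Topology Set
open scoped ENNReal NNReal

/-- `E` is `(n, ε)`-separated for `T`: distinct points of `E` are at distance `> ε` at some
time `k < n`. -/
def IsSep {X : Type*} [MetricSpace X] (T : X → X) (n : ℕ) (ε : ℝ) (E : Set X) : Prop :=
  ∀ x ∈ E, ∀ y ∈ E, x ≠ y → ∃ k < n, ε < dist (T^[k] x) (T^[k] y)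

/-- `s(n, ε)`: the maximal cardinality of an `(n, ε)`-separated set. -/
noncomputable def sepNum {X : Type*} [MetricSpace X] (T : X → X) (n : ℕ) (ε : ℝ) : ℕ∞ :=
  ⨆ E : {E : Set X // IsSep T n ε E}, E.1.encard

/-- `h(T, ε) = limsup_n (1/n) log s(n, ε)`. -/
noncomputable def scaleEntropy {X : Type*} [MetricSpace X] (T : X → X) (ε : ℝ) : EReal :=
  limsup (fun n : ℕ => ENNReal.log ((sepNum T n ε : ℕ∞) : ℝ≥0∞) / ((n : ℝ) : EReal)) atTop

/-- The upper metric mean dimension `limsup_{ε → 0} h(T, ε) / |log ε|`. -/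
noncomputable def upperMdim {X : Type*} [MetricSpace X] (T : X → X) : EReal :=
  limsup (fun ε : ℝ => scaleEntropy T ε / ((|Real.log ε| : ℝ) : EReal)) (𝓝[>] 0)

end Pool.MP74738e
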