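import Mathlib
import Pool.Agent.Work.MP_74738e_an.Defs

namespace Pool.MP74738e

open Filter Topology Set
open scoped ENNReal NNReal

variable {X : Type*} [MetricSpace X]

lemma IsSep.mono {T : X → X} {n : ℕ} {ε : ℝ} {E F : Set X} (hF : IsSep T n ε F) (h : E ⊆ F) :
    IsSep T n ε E := fun x hx y hy hxy => hF x (h hx) y (h hy) hxy

lemma IsSep.mono_n {T : X → X} {n m : ℕ} {ε : ℝ} {E : Set X} (hE : IsSep T n ε E) (h : n ≤ m) :
    IsSep T m ε E := fun x hx y hy hxy => by
  obtain ⟨k, hk, h'⟩ := hE x hx y hy hxy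
  exact ⟨k, hk.trans_le h, h'⟩

open Classical in
lemma card_sep_le (T : X → X) (ε : ℝ) (P : Finset X) (c : X → X)
    (hcP : ∀ x, c x ∈ P) (hc : ∀ x, dist x (c x) ≤ ε) (B : ℕ)
    (hB : ∀ b0 ∈ P, ((P ×ˢ P).filter
      (fun q => ∃ x, c x = b0 ∧ c (T x) = q.1 ∧ c (T (T x)) = q.2)).card ≤ B) :
    ∀ m : ℕ, ∀ b0 ∈ P, ∀ E : Finset X, (∀ x ∈ E, c x = b0) →
      IsSep T (2 * m + 1) (2 * ε) (E : Set X) → E.card ≤ B ^ m := by
  have hclose : ∀ x y, c x = c y → dist x y ≤ 2 * ε := by
    intro x y h
    calc dist x y ≤ dist x (c x) + dist (c x) y := dist_triangle _ _ _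
      _ ≤ ε + ε := by
        gcongr
        · exact hc x
        · rw [h, dist_comm]; exact hc y
      _ = 2 * ε := by ring
  intro m
  induction m with
  | zero =>
    intro b0 _ E hE hsep
    simp only [pow_zero]
    rw [Finset.card_le_one]
    intro x hx y hy
    by_contra hxy
    obtain ⟨k, hk, h⟩ := hsep x hx y hy hxy
    have hk0 : k = 0 := by omega
    subst hk0
    simp only [Function.iterate_zero, id_eq] at h
    have := hclose x y (by rw [hE x hx, hE y hy])
    linarith
  | succ m ih =>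
    intro b0 hb0 E hE hsep
    have h1 : E.card ≤ B ^ m * (E.image (fun x => (c (T x), c (T (T x))))).card := by
      apply Finset.card_le_mul_card_image
      intro a ha
      set F := E.filter (fun x => (c (T x), c (T (T x))) = a) with hF
      have hFE : ∀ x ∈ F, x ∈ E := fun x hx => (Finset.mem_filter.mp hx).1
      have hFa : ∀ x ∈ F, c (T x) = a.1 ∧ c (T (T x)) = a.2 := fun x hx => by
        have := (Finset.mem_filter.mp hx).2
        rw [← this]
        exact ⟨rfl, rfl⟩
      -- separation happens at time at least two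
      have hsep2 : ∀ x ∈ F, ∀ y ∈ F, x ≠ y →
          ∃ k < 2 * m + 1, 2 * ε < dist (T^[k] (T (T x))) (T^[k] (T (T y))) := by
        intro x hx y hy hxy
        obtain ⟨k, hk, h⟩ := hsep x (hFE x hx) y (hFE y hy) hxy
        rcases k with _ | _ | k
        · simp only [Function.iterate_zero, id_eq] at h
          have := hclose x y (by rw [hE x (hFE x hx), hE y (hFE y hy)])
          linarith
        · simp only [zero_add, Function.iterate_one] at h
          have := hclose (T x) (T y) (by rw [(hFa x hx).1, (hFa y hy).1])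
          linarith
        · refine ⟨k, by omega, ?_⟩
          simpa only [Function.iterate_succ_apply] using h
      have hεpos : 0 ≤ 2 * ε := by
        obtain ⟨x, -⟩ := Finset.mem_image.mp ha
        have := dist_nonneg.trans (hc x)
        linarith
      have hinj : Set.InjOn (fun x => T (T x)) (F : Set X) := by
        intro x hx y hy hxy
        by_contra hne
        obtain ⟨k, _, h⟩ := hsep2 x hx y hy hne
        simp only at hxy
        rw [hxy, dist_self] at h
        linarith
      rw [← Finset.card_image_of_injOn hinj]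
      rcases Finset.mem_image.mp ha with ⟨x0, hx0, hx0a⟩
      refine ih a.2 (by rw [← hx0a]; exact hcP _) _ ?_ ?_
      · intro z hz
        obtain ⟨x, hx, rfl⟩ := Finset.mem_image.mp hz
        exact (hFa x hx).2
      · intro z hz w hw hzw
        rw [Finset.mem_coe] at hz hw
        obtain ⟨x, hx, rfl⟩ := Finset.mem_image.mp hz
        obtain ⟨y, hy, rfl⟩ := Finset.mem_image.mp hw
        have hxy : x ≠ y := by
          rintro rfl
          exact hzw rfl
        exact hsep2 x hx y hy hxy
    have h2 : (E.image (fun x => (c (T x), c (T (T x))))).card ≤ B := by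
      refine (Finset.card_le_card ?_).trans (hB b0 hb0)
      intro q hq
      obtain ⟨x, hx, rfl⟩ := Finset.mem_image.mp hq
      rw [Finset.mem_filter, Finset.mem_product]
      exact ⟨⟨hcP _, hcP _⟩, x, hE x hx, rfl, rfl⟩
    calc E.card ≤ B ^ m * (E.image (fun x => (c (T x), c (T (T x))))).card := h1
      _ ≤ B ^ m * B := by gcongr
      _ = B ^ (m + 1) := by ring

open Classical in
lemma card_sep_le' (T : X → X) (ε : ℝ) (P : Finset X) (c : X → X)
    (hcP : ∀ x, c x ∈ P) (hc : ∀ x, dist x (c x) ≤ ε) (B : ℕ)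
    (hB : ∀ b0 ∈ P, ((P ×ˢ P).filter
      (fun q => ∃ x, c x = b0 ∧ c (T x) = q.1 ∧ c (T (T x)) = q.2)).card ≤ B)
    (n : ℕ) (E : Finset X) (hE : IsSep T n (2 * ε) (E : Set X)) :
    E.card ≤ P.card * B ^ (n / 2) := by
  have h1 : E.card ≤ B ^ (n / 2) * (E.image c).card := by
    apply Finset.card_le_mul_card_image
    intro a ha
    obtain ⟨x0, hx0, hx0a⟩ := Finset.mem_image.mp ha
    refine card_sep_le T ε P c hcP hc B hB (n / 2) a (by rw [← hx0a]; exact hcP _) _ ?_ ?_
    · intro x hx
      exact (Finset.mem_filter.mp hx).2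
    · refine IsSep.mono_n ?_ (show n ≤ 2 * (n / 2) + 1 by omega)
      exact hE.mono (by intro x hx; exact (Finset.mem_filter.mp hx).1)
  calc E.card ≤ B ^ (n / 2) * (E.image c).card := h1
    _ ≤ B ^ (n / 2) * P.card := by
      gcongr
      intro z hz
      obtain ⟨x, _, rfl⟩ := Finset.mem_image.mp hz
      exact hcP x
    _ = P.card * B ^ (n / 2) := by ring

open Classical in
lemma sepNum_le (T : X → X) (ε : ℝ) (P : Finset X) (c : X → X)
    (hcP : ∀ x, c x ∈ P) (hc : ∀ x, dist x (c x) ≤ ε) (B : ℕ)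
    (hB : ∀ b0 ∈ P, ((P ×ˢ P).filter
      (fun q => ∃ x, c x = b0 ∧ c (T x) = q.1 ∧ c (T (T x)) = q.2)).card ≤ B)
    (n : ℕ) : sepNum T n (2 * ε) ≤ ((P.card * B ^ (n / 2) : ℕ) : ℕ∞) := by
  refine iSup_le ?_
  rintro ⟨E, hE⟩
  simp only
  by_contra hcon
  rw [not_le] at hcon
  have h2 : ((P.card * B ^ (n / 2) + 1 : ℕ) : ℕ∞) ≤ E.encard := by
    push_cast
    exact Order.add_one_le_of_lt (by exact_mod_cast hcon)
  obtain ⟨F, hFE, hF⟩ := Set.exists_subset_encard_eq h2
  have hfin : F.Finite := Set.finite_of_encard_eq_coe hF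
  have h3 := card_sep_le' T ε P c hcP hc B hB n hfin.toFinset (by
    rw [hfin.coe_toFinset]; exact hE.mono hFE)
  have h4 : (hfin.toFinset.card : ℕ∞) = F.encard := by
    rw [hfin.encard_eq_coe_toFinset_card]
  rw [hF] at h4
  have h5 : hfin.toFinset.card = P.card * B ^ (n / 2) + 1 := by exact_mod_cast h4
  omega

lemma scaleEntropy_le (T : X → X) (ε : ℝ) (p B : ℕ) (hp : 1 ≤ p) (hB : 1 ≤ B)
    (h : ∀ n, sepNum T n ε ≤ ((p * B ^ (n / 2) : ℕ) : ℕ∞)) :
    scaleEntropy T ε ≤ ((Real.log B / 2 : ℝ) : EReal) := by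
  unfold scaleEntropy
  have key : ∀ n : ℕ, 1 ≤ n →
      ENNReal.log ((sepNum T n ε : ℕ∞) : ℝ≥0∞) / ((n : ℝ) : EReal) ≤
        ((Real.log p / n + Real.log B / 2 : ℝ) : EReal) := by
    intro n hn
    have hnpos : (0 : ℝ) < n := by exact_mod_cast hn
    have h1 : ENNReal.log ((sepNum T n ε : ℕ∞) : ℝ≥0∞) ≤
        ((Real.log (p * B ^ (n / 2) : ℕ) : ℝ) : EReal) := by
      have h2 : ((sepNum T n ε : ℕ∞) : ℝ≥0∞) ≤ ENNReal.ofReal ((p * B ^ (n / 2) : ℕ) : ℝ) := by
        rw [ENNReal.ofReal_natCast]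
        exact_mod_cast h n
      refine (ENNReal.log_monotone h2).trans ?_
      rw [ENNReal.log_ofReal_of_pos]
      have : 0 < p * B ^ (n / 2) := by positivity
      exact_mod_cast this
    have h3 : Real.log (p * B ^ (n / 2) : ℕ) ≤ Real.log p + (n / 2) * Real.log B := by
      push_cast
      rw [Real.log_mul (by positivity) (by positivity), Real.log_pow]
      have h4 : ((n / 2 : ℕ) : ℝ) ≤ n / 2 := by
        have := @Nat.cast_div_le ℝ _ _ _ n 2
        simpa using this
      have h5 : 0 ≤ Real.log B := Real.log_nonneg (by exact_mod_cast hB)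
      nlinarith
    calc ENNReal.log ((sepNum T n ε : ℕ∞) : ℝ≥0∞) / ((n : ℝ) : EReal)
        ≤ ((Real.log p + (n / 2) * Real.log B : ℝ) : EReal) / ((n : ℝ) : EReal) := by
          apply EReal.div_le_div_right_of_nonneg
          · exact_mod_cast hnpos.le
          · exact h1.trans (by exact_mod_cast h3)
      _ = (((Real.log p + (n / 2) * Real.log B) / n : ℝ) : EReal) := by
          rw [← EReal.coe_div]
      _ = ((Real.log p / n + Real.log B / 2 : ℝ) : EReal) := by
          congr 1
          field_simp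
  have hlim : Tendsto (fun n : ℕ => ((Real.log p / n + Real.log B / 2 : ℝ) : EReal)) atTop
      (𝓝 ((Real.log B / 2 : ℝ) : EReal)) := by
    refine (continuous_coe_real_ereal.tendsto _).comp ?_
    have : Tendsto (fun n : ℕ => Real.log p / (n : ℝ)) atTop (𝓝 0) :=
      tendsto_const_div_atTop_nhds_zero_nat _
    simpa using this.add_const (Real.log B / 2)
  rw [← hlim.limsup_eq]
  refine limsup_le_limsup ?_
  filter_upwards [eventually_ge_atTop 1] with n hn using key n hn

end Pool.MP74738e
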