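import Mathlib
import Pool.Agent.Work.MP_74738e_an.Defs

namespace Pool.MP74738e

open Filter Topology Set Metric
open scoped ENNReal NNReal

/-- Packing property of dimension `d` with constant `A`. -/
def Packing (A : ℝ) (d : ℕ) (X : Type*) [MetricSpace X] : Prop :=
  ∀ (x : X) (w R : ℝ), 0 < w → w ≤ R → ∀ E : Finset X, (∀ y ∈ E, dist y x ≤ R) →
    (∀ y ∈ E, ∀ z ∈ E, y ≠ z → w ≤ dist y z) → (E.card : ℝ) ≤ A * (R / w) ^ d

variable {X : Type*} [MetricSpace X]

open Classical in
theorem pair_count {d : ℕ} {A ε w C D D2 lam α : ℝ} (hA : Packing A d X)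
    (hw : 0 < w) (hwε : 4 * w ≤ ε) (hD : 0 ≤ D) (hD2 : 0 ≤ D2) (hC : 0 ≤ C)
    (hlam : 2 ≤ lam) (hα : 0 < α)
    (hCw : C * w ^ α ≤ C * ε) (hDε : C * ε ^ α ≤ D) (hD2ε : C * D ^ α ≤ D2)
    (P W : Finset X) (c p : X → X)
    (_hcP : ∀ x, c x ∈ P) (hc : ∀ x, dist x (c x) ≤ ε)
    (hPsep : ∀ y ∈ P, ∀ z ∈ P, y ≠ z → ε ≤ dist y z)
    (hpW : ∀ x, p x ∈ W) (hp : ∀ x, dist x (p x) ≤ w)
    (hWsep : ∀ y ∈ W, ∀ z ∈ W, y ≠ z → w ≤ dist y z)
    (T : X → X) (S : X ≃ₜ X)
    (hT : ∀ x y, dist (T x) (T y) ≤ C * dist x y ^ α)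
    (hS : ∀ x y, dist (S x) (S y) ≤ C * dist x y ^ α)
    (hTS : ∀ x, dist (T x) (S x) ≤ ε)
    (hconn : ∀ x : X, ∃ Q : Set X, IsPreconnected Q ∧ closedBall x (2 * ε) ⊆ Q ∧
      Q ⊆ closedBall x (lam * ε))
    (b0 : X) :
    (((P ×ˢ P).filter
      (fun q => ∃ x, c x = b0 ∧ c (T x) = q.1 ∧ c (T (T x)) = q.2)).card : ℝ) ≤
      (A * 2 ^ d) * (A * ((D2 + ε) / ε) ^ d) +
      (8 * w / ε) * ((A * 3 ^ d) * (A * (lam + C) ^ d) * (A * ((D + 2 * ε) / w) ^ d)) := by
  have hε : 0 < ε := by linarith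
  have : Nonempty X := ⟨b0⟩
  set QQ := (P ×ˢ P).filter
      (fun q => ∃ x, c x = b0 ∧ c (T x) = q.1 ∧ c (T (T x)) = q.2) with hQQ
  have hQQP : ∀ q ∈ QQ, q.1 ∈ P ∧ q.2 ∈ P := fun q hq =>
    Finset.mem_product.mp (Finset.mem_filter.mp hq).1
  choose Q hQc hQ1 hQ2 using hconn
  -- the witnesses
  have hy : ∀ q ∈ QQ, ∃ y, dist y q.1 ≤ ε ∧ dist (S y) q.2 ≤ 2 * ε ∧ dist y (T b0) ≤ D ∧
      dist (T y) q.2 ≤ ε := by
    intro q hq
    obtain ⟨x, hx0, hx1, hx2⟩ := (Finset.mem_filter.mp hq).2
    refine ⟨T x, ?_, ?_, ?_, ?_⟩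
    · rw [← hx1]; exact hc _
    · calc dist (S (T x)) q.2 ≤ dist (S (T x)) (T (T x)) + dist (T (T x)) q.2 :=
            dist_triangle _ _ _
        _ ≤ ε + ε := by
            gcongr
            · rw [dist_comm]; exact hTS _
            · rw [← hx2]; exact hc _
        _ = 2 * ε := by ring
    · refine (hT x b0).trans (le_trans ?_ hDε)
      gcongr
      rw [← hx0]
      exact hc x
    · rw [← hx2]; exact hc _
  choose! y hy1 hy2 hy3 hy4 using hy
  set K : X → Set X := fun b => S.symm '' (Q b) with hK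
  have hKc : ∀ b, IsPreconnected (K b) := fun b => (hQc b).image _ S.symm.continuous.continuousOn
  have hKS : ∀ b, ∀ z ∈ K b, dist (S z) b ≤ lam * ε := by
    rintro b z ⟨u, hu, rfl⟩
    rw [S.apply_symm_apply]
    exact hQ2 b hu
  have hyK : ∀ q ∈ QQ, y q ∈ K q.2 := fun q hq =>
    ⟨S (y q), hQ1 _ (by rw [mem_closedBall]; exact hy2 q hq), S.symm_apply_apply _⟩
  -- small and large pairs
  set SS := QQ.filter (fun q => ∀ z ∈ K q.2, dist (y q) z ≤ ε) with hSS
  set LL := QQ.filter (fun q => ¬ ∀ z ∈ K q.2, dist (y q) z ≤ ε) with hLL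
  have hcard : QQ.card = SS.card + LL.card :=
    (Finset.card_filter_add_card_filter_not _).symm
  have hSSQQ : ∀ q ∈ SS, q ∈ QQ := fun q hq => (Finset.mem_filter.mp hq).1
  have hLLQQ : ∀ q ∈ LL, q ∈ QQ := fun q hq => (Finset.mem_filter.mp hq).1
  -- count of small pairs
  have hsmall : (SS.card : ℝ) ≤ (A * 2 ^ d) * (A * ((D2 + ε) / ε) ^ d) := by
    have h1 : SS.card ≤ ⌊A * 2 ^ d⌋₊ * (SS.image Prod.snd).card := by
      apply Finset.card_le_mul_card_image
      intro b hb
      obtain ⟨q0, hq0, hq0b⟩ := Finset.mem_image.mp hb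
      set F := SS.filter (fun q => q.2 = b) with hF
      have hinj : Set.InjOn Prod.fst (F : Set (X × X)) := by
        intro q hq q' hq' h
        have h1 := (Finset.mem_filter.mp (Finset.mem_coe.mp hq)).2
        have h2 := (Finset.mem_filter.mp (Finset.mem_coe.mp hq')).2
        exact Prod.ext h (h1.trans h2.symm)
      rw [← Finset.card_image_of_injOn hinj]
      apply Nat.le_floor
      have h3 := hA (y q0) ε (2 * ε) hε (by linarith) (F.image Prod.fst) ?_ ?_
      · rwa [mul_div_cancel_right₀ _ hε.ne'] at h3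
      · intro b1 hb1
        obtain ⟨q, hq, rfl⟩ := Finset.mem_image.mp hb1
        obtain ⟨hq1, hq2⟩ := Finset.mem_filter.mp hq
        have h4 : y q ∈ K q0.2 := by
          rw [hq0b, ← hq2]; exact hyK q (hSSQQ q hq1)
        have h5 := (Finset.mem_filter.mp hq0).2 (y q) h4
        calc dist q.1 (y q0) ≤ dist q.1 (y q) + dist (y q) (y q0) := dist_triangle _ _ _
          _ ≤ ε + ε := by
            gcongr
            · rw [dist_comm]; exact hy1 q (hSSQQ q hq1)
            · rw [dist_comm]; exact h5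
          _ = 2 * ε := by ring
      · intro b1 hb1 b2 hb2 hne
        obtain ⟨q, hq, rfl⟩ := Finset.mem_image.mp hb1
        obtain ⟨q', hq', rfl⟩ := Finset.mem_image.mp hb2
        exact hPsep _ (hQQP q (hSSQQ q (Finset.mem_filter.mp hq).1)).1 _
          (hQQP q' (hSSQQ q' (Finset.mem_filter.mp hq').1)).1 hne
    have h2 : ((SS.image Prod.snd).card : ℝ) ≤ A * ((D2 + ε) / ε) ^ d := by
      apply hA (T (T b0)) ε (D2 + ε) hε (by linarith)
      · intro b hb
        obtain ⟨q, hq, rfl⟩ := Finset.mem_image.mp hb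
        have hq' := hSSQQ q hq
        calc dist q.2 (T (T b0)) ≤ dist q.2 (T (y q)) + dist (T (y q)) (T (T b0)) :=
              dist_triangle _ _ _
          _ ≤ ε + D2 := by
            gcongr
            · rw [dist_comm]; exact hy4 q hq'
            · refine (hT _ _).trans (le_trans ?_ hD2ε)
              gcongr
              exact hy3 q hq'
          _ = D2 + ε := by ring
      · intro b1 hb1 b2 hb2 hne
        obtain ⟨q, hq, rfl⟩ := Finset.mem_image.mp hb1
        obtain ⟨q', hq', rfl⟩ := Finset.mem_image.mp hb2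
        exact hPsep _ (hQQP q (hSSQQ q hq)).2 _ (hQQP q' (hSSQQ q' hq')).2 hne
    have hA0 : 0 ≤ A := by
      by_contra hneg
      push Not at hneg
      have := hA b0 ε ε hε le_rfl ∅ (by simp) (by simp)
      rw [div_self hε.ne'] at this
      simp at this
      linarith
    calc (SS.card : ℝ) ≤ ((⌊A * 2 ^ d⌋₊ * (SS.image Prod.snd).card : ℕ) : ℝ) := by exact_mod_cast h1
      _ = (⌊A * 2 ^ d⌋₊ : ℝ) * ((SS.image Prod.snd).card : ℝ) := by push_cast; ring
      _ ≤ (A * 2 ^ d) * (A * ((D2 + ε) / ε) ^ d) := by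
        gcongr
        exact Nat.floor_le (by positivity)
  -- count of large pairs
  have hA0 : 0 ≤ A := by
    by_contra hneg
    push Not at hneg
    have := hA b0 ε ε hε le_rfl ∅ (by simp) (by simp)
    rw [div_self hε.ne'] at this
    simp at this
    linarith
  set m : ℕ := ⌊ε / (4 * w)⌋₊ with hm
  have hm1 : 1 ≤ m := by
    rw [hm]
    apply Nat.le_floor
    rw [Nat.cast_one, le_div_iff₀ (by linarith)]
    linarith
  have hm2 : (m : ℝ) * (4 * w) ≤ ε := by
    have := Nat.floor_le (show 0 ≤ ε / (4 * w) by positivity)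
    rwa [← hm, le_div_iff₀ (by linarith)] at this
  have hm3 : ε / (8 * w) ≤ m := by
    have h1 := Nat.lt_floor_add_one (ε / (4 * w))
    rw [← hm] at h1
    have h2 : ε / (8 * w) = ε / (4 * w) / 2 := by
      field_simp
      ring
    have h3 : (1 : ℝ) ≤ m := by exact_mod_cast hm1
    rw [h2]
    linarith
  have hz : ∀ q ∈ LL, ∀ j < m, ∃ z ∈ K q.2, dist (y q) z = 4 * w * (j + 1) := by
    intro q hq j hj
    obtain ⟨hq1, hq2⟩ := Finset.mem_filter.mp hq
    push Not at hq2
    obtain ⟨z1, hz1, hz1'⟩ := hq2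
    have hcont : ContinuousOn (fun z => dist (y q) z) (K q.2) := by fun_prop
    have hiv := (hKc q.2).intermediate_value (hyK q hq1) hz1 hcont
    have hmem : 4 * w * ((j : ℝ) + 1) ∈ Icc (dist (y q) (y q)) (dist (y q) z1) := by
      constructor
      · rw [dist_self]; positivity
      · have : (j : ℝ) + 1 ≤ m := by exact_mod_cast hj
        nlinarith
    obtain ⟨z, hz, hz'⟩ := hiv hmem
    exact ⟨z, hz, hz'⟩
  choose! z hzK hzd using hz
  have hlarge : (m : ℝ) * (LL.card : ℝ) ≤
      (A * 3 ^ d) * (A * (lam + C) ^ d) * (A * ((D + 2 * ε) / w) ^ d) := by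
    set g : (X × X) × ℕ → X := fun r => p (z r.1 r.2) with hg
    set n1 := ⌊A * 3 ^ d⌋₊ with hn1
    set n2 := ⌊A * (lam + C) ^ d⌋₊ with hn2
    have h1 : (LL ×ˢ Finset.range m).card ≤ (n1 * n2) * ((LL ×ˢ Finset.range m).image g).card := by
      apply Finset.card_le_mul_card_image
      intro a ha
      set F := (LL ×ˢ Finset.range m).filter (fun r => g r = a) with hF
      have hF1 : ∀ r ∈ F, r.1 ∈ LL ∧ r.2 < m ∧ p (z r.1 r.2) = a := by
        intro r hr
        obtain ⟨h1, h2⟩ := Finset.mem_filter.mp hr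
        obtain ⟨h3, h4⟩ := Finset.mem_product.mp h1
        exact ⟨h3, Finset.mem_range.mp h4, h2⟩
      have hinj : Set.InjOn Prod.fst (F : Set ((X × X) × ℕ)) := by
        intro r hr r' hr' h
        obtain ⟨h1, h2, h3⟩ := hF1 r (Finset.mem_coe.mp hr)
        obtain ⟨h1', h2', h3'⟩ := hF1 r' (Finset.mem_coe.mp hr')
        refine Prod.ext h ?_
        have d1 := hzd r.1 h1 r.2 h2
        have d2 := hzd r'.1 h1' r'.2 h2'
        have e1 : dist (z r.1 r.2) a ≤ w := by rw [← h3]; exact hp _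
        have e2 : dist (z r'.1 r'.2) a ≤ w := by rw [← h3']; exact hp _
        rw [← h] at d2 e2
        have e3 : dist (z r.1 r.2) (z r.1 r'.2) ≤ 2 * w := by
          calc dist (z r.1 r.2) (z r.1 r'.2) ≤ dist (z r.1 r.2) a + dist a (z r.1 r'.2) :=
                dist_triangle _ _ _
            _ ≤ w + w := by
              gcongr
              rw [dist_comm]; exact e2
            _ = 2 * w := by ring
        have e4 : |dist (y r.1) (z r.1 r.2) - dist (y r.1) (z r.1 r'.2)| ≤ 2 * w := by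
          refine le_trans ?_ e3
          rw [dist_comm (y r.1), dist_comm (y r.1)]
          exact abs_dist_sub_le _ _ _
        rw [d1, d2] at e4
        by_contra hne
        have e5 : (1 : ℝ) ≤ |(r.2 : ℝ) - r'.2| := by
          have : (1 : ℤ) ≤ |(r.2 : ℤ) - r'.2| := by
            apply Int.one_le_abs
            intro h0
            exact hne (by omega)
          exact_mod_cast this
        have e6 : 4 * w * ((r.2 : ℝ) + 1) - 4 * w * ((r'.2 : ℝ) + 1) =
            4 * w * ((r.2 : ℝ) - r'.2) := by ring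
        rw [e6, abs_mul, abs_of_pos (by positivity : (0 : ℝ) < 4 * w)] at e4
        nlinarith
      rw [← Finset.card_image_of_injOn hinj]
      -- embed in a product of two small sets
      have hsub : F.image Prod.fst ⊆
          (P.filter (fun b => dist b a ≤ 3 * ε)) ×ˢ
            (P.filter (fun b => dist b (S a) ≤ (lam + C) * ε)) := by
        intro q hq
        obtain ⟨r, hr, rfl⟩ := Finset.mem_image.mp hq
        obtain ⟨h1, h2, h3⟩ := hF1 r hr
        have hqQQ := hLLQQ _ h1
        have d1 := hzd r.1 h1 r.2 h2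
        have e1 : dist (z r.1 r.2) a ≤ w := by rw [← h3]; exact hp _
        rw [Finset.mem_product, Finset.mem_filter, Finset.mem_filter]
        refine ⟨⟨(hQQP _ hqQQ).1, ?_⟩, (hQQP _ hqQQ).2, ?_⟩
        · have hj : (r.2 : ℝ) + 1 ≤ m := by exact_mod_cast h2
          have d1' : dist (y r.1) (z r.1 r.2) ≤ ε := by rw [d1]; nlinarith
          calc dist r.1.1 a ≤ dist r.1.1 (y r.1) + dist (y r.1) (z r.1 r.2) +
                  dist (z r.1 r.2) a := dist_triangle4 _ _ _ _
            _ ≤ ε + ε + ε := by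
              gcongr
              · rw [dist_comm]; exact hy1 _ hqQQ
              · linarith
            _ = 3 * ε := by ring
        · calc dist r.1.2 (S a) ≤ dist r.1.2 (S (z r.1 r.2)) + dist (S (z r.1 r.2)) (S a) :=
                dist_triangle _ _ _
            _ ≤ lam * ε + C * ε := by
              gcongr
              · rw [dist_comm]; exact hKS _ _ (hzK _ h1 _ h2)
              · refine (hS _ _).trans (le_trans ?_ hCw)
                gcongr
            _ = (lam + C) * ε := by ring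
      refine (Finset.card_le_card hsub).trans ?_
      rw [Finset.card_product]
      apply Nat.mul_le_mul
      · apply Nat.le_floor
        have h3 := hA a ε (3 * ε) hε (by linarith) (P.filter (fun b => dist b a ≤ 3 * ε))
          (fun b hb => (Finset.mem_filter.mp hb).2)
          (fun b hb b' hb' hne => hPsep _ (Finset.mem_filter.mp hb).1 _
            (Finset.mem_filter.mp hb').1 hne)
        rwa [mul_div_cancel_right₀ _ hε.ne'] at h3
      · apply Nat.le_floor
        have h3 := hA (S a) ε ((lam + C) * ε) hε (by nlinarith)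
          (P.filter (fun b => dist b (S a) ≤ (lam + C) * ε))
          (fun b hb => (Finset.mem_filter.mp hb).2)
          (fun b hb b' hb' hne => hPsep _ (Finset.mem_filter.mp hb).1 _
            (Finset.mem_filter.mp hb').1 hne)
        rwa [mul_div_cancel_right₀ _ hε.ne'] at h3
    have h2 : (((LL ×ˢ Finset.range m).image g).card : ℝ) ≤ A * ((D + 2 * ε) / w) ^ d := by
      apply hA (T b0) w (D + 2 * ε) hw (by linarith)
      · intro a ha
        obtain ⟨r, hr, rfl⟩ := Finset.mem_image.mp ha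
        obtain ⟨h1, h2⟩ := Finset.mem_product.mp hr
        have h3 := Finset.mem_range.mp h2
        have d1 := hzd r.1 h1 r.2 h3
        have hj : (r.2 : ℝ) + 1 ≤ m := by exact_mod_cast h3
        have d1' : dist (y r.1) (z r.1 r.2) ≤ ε := by rw [d1]; nlinarith
        calc dist (g r) (T b0) ≤ dist (p (z r.1 r.2)) (z r.1 r.2) +
                dist (z r.1 r.2) (y r.1) + dist (y r.1) (T b0) := dist_triangle4 _ _ _ _
          _ ≤ ε + ε + D := by
            gcongr
            · rw [dist_comm]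
              exact (hp _).trans (by linarith)
            · rw [dist_comm]; exact d1'
            · exact hy3 _ (hLLQQ _ h1)
          _ = D + 2 * ε := by ring
      · intro a ha a' ha' hne
        obtain ⟨r, _, rfl⟩ := Finset.mem_image.mp ha
        obtain ⟨r', _, rfl⟩ := Finset.mem_image.mp ha'
        exact hWsep _ (hpW _) _ (hpW _) hne
    rw [Finset.card_product, Finset.card_range] at h1
    have hlamC : 0 ≤ lam + C := by linarith
    calc (m : ℝ) * (LL.card : ℝ) = ((LL.card * m : ℕ) : ℝ) := by push_cast; ring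
      _ ≤ ((n1 * n2 * ((LL ×ˢ Finset.range m).image g).card : ℕ) : ℝ) := by exact_mod_cast h1
      _ = (n1 : ℝ) * n2 * (((LL ×ˢ Finset.range m).image g).card : ℝ) := by push_cast; ring
      _ ≤ (A * 3 ^ d) * (A * (lam + C) ^ d) * (A * ((D + 2 * ε) / w) ^ d) := by
        gcongr
        · exact Nat.floor_le (by positivity)
        · exact Nat.floor_le (by positivity)
  have hlarge' : (LL.card : ℝ) ≤
      (8 * w / ε) * ((A * 3 ^ d) * (A * (lam + C) ^ d) * (A * ((D + 2 * ε) / w) ^ d)) := by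
    have h1 : (ε / (8 * w)) * (LL.card : ℝ) ≤
        (A * 3 ^ d) * (A * (lam + C) ^ d) * (A * ((D + 2 * ε) / w) ^ d) := by
      refine le_trans ?_ hlarge
      gcongr
    calc (LL.card : ℝ) = (8 * w / ε) * ((ε / (8 * w)) * (LL.card : ℝ)) := by
          field_simp
      _ ≤ _ := by gcongr
  rw [hcard]
  push_cast
  exact add_le_add hsmall hlarge'

end Pool.MP74738e
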