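import Mathlib
import Pool.Agent.Work.MP_74738e_an.Coding
import Pool.Agent.Work.MP_74738e_an.Pairs

namespace Pool.MP74738e

open Filter Topology Set Metric
open scoped ENNReal NNReal

variable {X : Type*} [MetricSpace X]

lemma upperMdim_le {T : X → X} {K e : ℝ}
    (h : ∀ᶠ δ in 𝓝[>] (0 : ℝ), scaleEntropy T δ ≤ ((K + e * |Real.log δ| : ℝ) : EReal)) :
    upperMdim T ≤ (e : EReal) := by
  unfold upperMdim
  have habs : Tendsto (fun δ : ℝ => |Real.log δ|) (𝓝[>] 0) atTop :=
    tendsto_abs_atBot_atTop.comp Real.tendsto_log_nhdsGT_zero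
  have hlim : Tendsto (fun δ : ℝ => ((K / |Real.log δ| + e : ℝ) : EReal)) (𝓝[>] 0)
      (𝓝 ((e : ℝ) : EReal)) := by
    refine (continuous_coe_real_ereal.tendsto _).comp ?_
    have : Tendsto (fun δ : ℝ => K / |Real.log δ|) (𝓝[>] 0) (𝓝 0) :=
      habs.const_div_atTop K
    simpa using this.add_const e
  rw [← hlim.limsup_eq]
  refine limsup_le_limsup ?_
  filter_upwards [h, habs.eventually_gt_atTop 0] with δ h1 h2
  calc scaleEntropy T δ / ((|Real.log δ| : ℝ) : EReal)
      ≤ ((K + e * |Real.log δ| : ℝ) : EReal) / ((|Real.log δ| : ℝ) : EReal) := by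
        apply EReal.div_le_div_right_of_nonneg _ h1
        exact_mod_cast h2.le
    _ = (((K + e * |Real.log δ|) / |Real.log δ| : ℝ) : EReal) := by
        rw [← EReal.coe_div]
    _ = ((K / |Real.log δ| + e : ℝ) : EReal) := by
        congr 1
        field_simp

lemma Packing.nonneg {A : ℝ} {d : ℕ} (hA : Packing A d X) [Nonempty X] : 0 ≤ A := by
  by_contra hneg
  push Not at hneg
  obtain ⟨b0⟩ := ‹Nonempty X›
  have := hA b0 1 1 one_pos le_rfl ∅ (by simp) (by simp)
  rw [div_self one_ne_zero] at this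
  simp at this
  linarith

open Classical in
lemma Packing.exists_net {A : ℝ} {d : ℕ} (hA : Packing A d X) [CompactSpace X] [Nonempty X]
    {ε : ℝ} (hε : 0 < ε) :
    ∃ P : Finset X, ∃ c : X → X, (∀ x, c x ∈ P) ∧ (∀ x, dist x (c x) ≤ ε) ∧
      (∀ y ∈ P, ∀ z ∈ P, y ≠ z → ε ≤ dist y z) := by
  obtain ⟨x0⟩ := ‹Nonempty X›
  obtain ⟨R, hR⟩ : ∃ R, ∀ y : X, dist y x0 ≤ R := by
    obtain ⟨R, hR⟩ := (isCompact_univ (X := X)).isBounded.subset_closedBall x0
    exact ⟨R, fun y => hR (mem_univ y)⟩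
  set N : ℕ := ⌊A * (max R ε / ε) ^ d⌋₊ with hN
  have hbound : ∀ E : Finset X, (∀ y ∈ E, ∀ z ∈ E, y ≠ z → ε ≤ dist y z) → E.card ≤ N := by
    intro E hE
    apply Nat.le_floor
    exact hA x0 ε (max R ε) hε (le_max_right _ _) E
      (fun y _ => (hR y).trans (le_max_left _ _)) hE
  -- choose a separated set of maximal cardinality
  set s : Set ℕ := {k | ∃ E : Finset X, E.card = k ∧ (∀ y ∈ E, ∀ z ∈ E, y ≠ z → ε ≤ dist y z)}
    with hs
  have hsne : s.Nonempty := ⟨0, ∅, rfl, by simp⟩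
  have hsb : BddAbove s := ⟨N, by
    rintro k ⟨E, rfl, hE⟩
    exact hbound E hE⟩
  obtain ⟨P, hPcard, hPsep⟩ := Nat.sSup_mem hsne hsb
  have hcov : ∀ x, ∃ p ∈ P, dist x p ≤ ε := by
    intro x
    by_contra hcon
    push Not at hcon
    have hxP : x ∉ P := fun hx => by
      have := hcon x hx
      rw [dist_self] at this
      linarith
    have hmem : (insert x P).card ∈ s := by
      refine ⟨insert x P, rfl, ?_⟩
      intro y hy z hz hyz
      rw [Finset.mem_insert] at hy hz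
      rcases hy with rfl | hy <;> rcases hz with rfl | hz
      · exact absurd rfl hyz
      · exact (hcon z hz).le
      · rw [dist_comm]; exact (hcon y hy).le
      · exact hPsep y hy z hz hyz
    have h1 := le_csSup hsb hmem
    rw [Finset.card_insert_of_notMem hxP, hPcard] at h1
    omega
  choose c hc1 hc2 using hcov
  exact ⟨P, c, hc1, hc2, hPsep⟩

/-- Local linear connectivity. -/
def LLC (lam r0 : ℝ) (X : Type*) [MetricSpace X] : Prop :=
  ∀ ε : ℝ, 0 < ε → ε < r0 → ∀ x : X, ∃ Q : Set X, IsPreconnected Q ∧ closedBall x (2 * ε) ⊆ Q ∧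
    Q ⊆ closedBall x (lam * ε)

/-- The exponent appearing in the bound. -/
noncomputable def bigExp (d : ℕ) (α : ℝ) : ℝ :=
  (1 - α) * max (((1 + α) * d - 1) / α) ((1 + α) * d)

theorem core [CompactSpace X] [Nonempty X] {d : ℕ} {A lam r0 C α : ℝ}
    (hA : Packing A d X) (hlam : 2 ≤ lam) (hr0 : 0 < r0) (hllc : LLC lam r0 X)
    (hα : 0 < α) (hα1 : α < 1) (hC : 0 ≤ C) (T : X → X)
    (hT : ∀ x y, dist (T x) (T y) ≤ C * dist x y ^ α)
    (hS : ∀ ε > 0, ∃ S : X ≃ₜ X, (∀ x y, dist (S x) (S y) ≤ C * dist x y ^ α) ∧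
      ∀ x, dist (T x) (S x) ≤ ε) :
    upperMdim T ≤ ((bigExp d α / 2 : ℝ) : EReal) := by
  have hA0 := hA.nonneg
  set C1 : ℝ := (A * 2 ^ d) * (A * (C * C ^ α + 1) ^ d) with hC1
  set C2 : ℝ := 8 * ((A * 3 ^ d) * (A * (lam + C) ^ d) * (A * (C + 2) ^ d)) with hC2
  have hC1n : 0 ≤ C1 := by positivity
  have hlamC : 0 ≤ lam + C := by linarith
  have hC2n : 0 ≤ C2 := by positivity
  set E := bigExp d α with hE
  -- the main estimate at scale `2 * ε`
  have hmain : ∀ ε : ℝ, 0 < ε → ε < r0 → ε ≤ 1 → 4 * ε ^ (1 / α) ≤ ε →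
      scaleEntropy T (2 * ε) ≤ (((Real.log (C1 + C2 + 1) + E * |Real.log ε|) / 2 : ℝ) : EReal) := by
    classical
    intro ε hε hεr0 hε1 hwε
    obtain ⟨P, c, hcP, hc, hPsep⟩ := hA.exists_net hε
    set w := ε ^ (1 / α) with hw
    have hwpos : 0 < w := Real.rpow_pos_of_pos hε _
    obtain ⟨W, p, hpW, hp, hWsep⟩ := hA.exists_net hwpos
    obtain ⟨S, hSH, hTS⟩ := hS ε hε
    have hwα : w ^ α = ε := by
      rw [hw, ← Real.rpow_mul hε.le, one_div, inv_mul_cancel₀ hα.ne', Real.rpow_one]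
    have hpc : ∀ b0 : X, (((P ×ˢ P).filter
        (fun q => ∃ x, c x = b0 ∧ c (T x) = q.1 ∧ c (T (T x)) = q.2)).card : ℝ) ≤
        (C1 + C2) * ε ^ (-E) := by
      intro b0
      refine (pair_count (D := C * ε ^ α) (D2 := C * (C * ε ^ α) ^ α) hA hwpos hwε
        (by positivity) (by positivity) hC hlam hα (by rw [hwα]) le_rfl le_rfl P W c p hcP hc
        hPsep hpW hp hWsep T S hT hSH hTS (hllc ε hε hεr0) b0).trans ?_
      have e1 : (C * (C * ε ^ α) ^ α + ε) / ε ≤ (C * C ^ α + 1) * ε ^ (-(1 - α ^ 2)) := by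
        rw [Real.mul_rpow hC (by positivity), ← Real.rpow_mul hε.le]
        have h1 : ε ^ (-(1 - α ^ 2)) = ε ^ (α * α) / ε := by
          rw [show -(1 - α ^ 2) = α * α - 1 by ring, Real.rpow_sub hε, Real.rpow_one]
        rw [h1, ← mul_div_assoc]
        gcongr
        have h2 : ε ≤ ε ^ (α * α) := by
          conv_lhs => rw [← Real.rpow_one ε]
          exact Real.rpow_le_rpow_of_exponent_ge hε hε1 (by nlinarith)
        nlinarith
      have e2 : (C * ε ^ α + 2 * ε) / w ≤ (C + 2) * ε ^ (α - 1 / α) := by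
        rw [Real.rpow_sub hε, ← hw, ← mul_div_assoc]
        gcongr
        have h2 : ε ≤ ε ^ α := by
          conv_lhs => rw [← Real.rpow_one ε]
          exact Real.rpow_le_rpow_of_exponent_ge hε hε1 hα1.le
        nlinarith
      have e3 : 8 * w / ε = 8 * ε ^ (1 / α - 1) := by
        rw [Real.rpow_sub hε, ← hw, Real.rpow_one, mul_div_assoc]
      have f1 : (ε ^ (-(1 - α ^ 2))) ^ d ≤ ε ^ (-E) := by
        rw [← Real.rpow_natCast, ← Real.rpow_mul hε.le]
        apply Real.rpow_le_rpow_of_exponent_ge hε hε1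
        rw [hE, bigExp]
        have : (1 - α) * ((1 + α) * d) ≤
            (1 - α) * max (((1 + α) * d - 1) / α) ((1 + α) * d) := by
          apply mul_le_mul_of_nonneg_left (le_max_right _ _)
          linarith
        nlinarith
      have f2 : ε ^ (1 / α - 1) * (ε ^ (α - 1 / α)) ^ d ≤ ε ^ (-E) := by
        rw [← Real.rpow_natCast, ← Real.rpow_mul hε.le, ← Real.rpow_add hε]
        apply Real.rpow_le_rpow_of_exponent_ge hε hε1
        rw [hE, bigExp]
        have h1 : (1 - α) * (((1 + α) * d - 1) / α) ≤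
            (1 - α) * max (((1 + α) * d - 1) / α) ((1 + α) * d) := by
          apply mul_le_mul_of_nonneg_left (le_max_left _ _)
          linarith
        have h2 : 1 / α - 1 + (α - 1 / α) * d = -((1 - α) * (((1 + α) * d - 1) / α)) := by
          field_simp
          ring
        rw [h2]
        linarith
      calc (A * 2 ^ d) * (A * ((C * (C * ε ^ α) ^ α + ε) / ε) ^ d) +
            (8 * w / ε) * ((A * 3 ^ d) * (A * (lam + C) ^ d) *
              (A * ((C * ε ^ α + 2 * ε) / w) ^ d))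
          ≤ (A * 2 ^ d) * (A * ((C * C ^ α + 1) * ε ^ (-(1 - α ^ 2))) ^ d) +
            (8 * ε ^ (1 / α - 1)) * ((A * 3 ^ d) * (A * (lam + C) ^ d) *
              (A * ((C + 2) * ε ^ (α - 1 / α)) ^ d)) := by
            rw [e3]
            gcongr
        _ = C1 * (ε ^ (-(1 - α ^ 2))) ^ d +
            C2 * (ε ^ (1 / α - 1) * (ε ^ (α - 1 / α)) ^ d) := by
            rw [hC1, hC2, mul_pow, mul_pow]
            ring
        _ ≤ C1 * ε ^ (-E) + C2 * ε ^ (-E) := by gcongr
        _ = (C1 + C2) * ε ^ (-E) := by ring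
    set B : ℕ := ⌊(C1 + C2 + 1) * ε ^ (-E)⌋₊ with hB
    have hEn : 0 ≤ E := by
      rw [hE, bigExp]
      apply mul_nonneg (by linarith)
      exact le_max_of_le_right (by positivity)
    have hεE : 1 ≤ ε ^ (-E) := Real.one_le_rpow_of_pos_of_le_one_of_nonpos hε hε1 (by linarith)
    have hB1 : 1 ≤ B := by
      apply Nat.le_floor
      rw [Nat.cast_one]
      nlinarith
    have hBcount : ∀ b0 ∈ P, ((P ×ˢ P).filter
        (fun q => ∃ x, c x = b0 ∧ c (T x) = q.1 ∧ c (T (T x)) = q.2)).card ≤ B := by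
      intro b0 _
      apply Nat.le_floor
      exact (hpc b0).trans (mul_le_mul_of_nonneg_right (by linarith) (by positivity))
    have hP1 : 1 ≤ P.card := by
      obtain ⟨x0⟩ := ‹Nonempty X›
      exact Finset.card_pos.mpr ⟨c x0, hcP x0⟩
    refine (scaleEntropy_le T (2 * ε) P.card B hP1 hB1
      (sepNum_le T ε P c hcP hc B hBcount)).trans ?_
    have hlogB : Real.log B ≤ Real.log (C1 + C2 + 1) + E * |Real.log ε| := by
      have h1 : (B : ℝ) ≤ (C1 + C2 + 1) * ε ^ (-E) := Nat.floor_le (by positivity)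
      have h2 : (0 : ℝ) < B := by exact_mod_cast hB1
      calc Real.log B ≤ Real.log ((C1 + C2 + 1) * ε ^ (-E)) := Real.log_le_log h2 h1
        _ = Real.log (C1 + C2 + 1) + (-E) * Real.log ε := by
          rw [Real.log_mul (by positivity) (by positivity), Real.log_rpow hε]
        _ = Real.log (C1 + C2 + 1) + E * |Real.log ε| := by
          rw [abs_of_nonpos (Real.log_nonpos hε.le hε1)]
          ring
    exact_mod_cast (by linarith :
      Real.log B / 2 ≤ (Real.log (C1 + C2 + 1) + E * |Real.log ε|) / 2)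
  -- conclusion
  have hEn : 0 ≤ E := by
    rw [hE, bigExp]
    apply mul_nonneg (by linarith)
    exact le_max_of_le_right (by positivity)
  refine upperMdim_le (K := (Real.log (C1 + C2 + 1) + E * Real.log 2) / 2) ?_
  have hev : ∀ᶠ ε : ℝ in 𝓝[>] 0, 4 * ε ^ (1 / α) ≤ ε := by
    have h1 : Tendsto (fun ε : ℝ => ε ^ (1 / α - 1)) (𝓝[>] 0) (𝓝 0) := by
      have h2 : 0 < 1 / α - 1 := by
        rw [sub_pos, lt_div_iff₀ hα]; linarith
      have h3 : ContinuousAt (fun ε : ℝ => ε ^ (1 / α - 1)) 0 :=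
        Real.continuousAt_rpow_const 0 _ (Or.inr h2.le)
      have h4 := h3.tendsto
      rw [Real.zero_rpow h2.ne'] at h4
      exact h4.mono_left nhdsWithin_le_nhds
    have h5 := h1.eventually (gt_mem_nhds (show (0 : ℝ) < 1 / 4 by norm_num))
    filter_upwards [h5, self_mem_nhdsWithin] with ε h6 h7
    have hε : (0 : ℝ) < ε := h7
    rw [Real.rpow_sub hε, Real.rpow_one, div_lt_iff₀ hε] at h6
    linarith
  have hhalf : Tendsto (fun δ : ℝ => δ / 2) (𝓝[>] 0) (𝓝[>] 0) := by
    apply tendsto_nhdsWithin_of_tendsto_nhds_of_eventually_within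
    · have : Tendsto (fun δ : ℝ => δ / 2) (𝓝 0) (𝓝 (0 / 2)) := by
        exact (continuous_id.div_const 2).tendsto 0
      rw [zero_div] at this
      exact this.mono_left nhdsWithin_le_nhds
    · filter_upwards [self_mem_nhdsWithin] with δ hδ
      have : (0 : ℝ) < δ := hδ
      exact half_pos this
  have h1 := hhalf.eventually hev
  have h2 : ∀ᶠ δ : ℝ in 𝓝[>] 0, δ / 2 < r0 :=
    hhalf.eventually (Filter.Tendsto.eventually_lt_const hr0
      (tendsto_id.mono_left nhdsWithin_le_nhds))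
  have h3 : ∀ᶠ δ : ℝ in 𝓝[>] 0, δ < 1 :=
    Filter.Tendsto.eventually_lt_const one_pos (tendsto_id.mono_left nhdsWithin_le_nhds)
  filter_upwards [h1, h2, h3, self_mem_nhdsWithin] with δ h4 h5 h6 h7
  have hδ : (0 : ℝ) < δ := h7
  have h8 := hmain (δ / 2) (by linarith) h5 (by linarith) h4
  rw [mul_div_cancel₀ δ (two_ne_zero)] at h8
  refine h8.trans ?_
  have h9 : |Real.log (δ / 2)| = |Real.log δ| + Real.log 2 := by
    rw [Real.log_div hδ.ne' two_ne_zero, abs_of_nonpos, abs_of_nonpos]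
    · ring
    · exact Real.log_nonpos hδ.le h6.le
    · have := Real.log_nonpos hδ.le h6.le
      have := Real.log_nonneg (show (1 : ℝ) ≤ 2 by norm_num)
      linarith
  rw [h9]
  apply le_of_eq
  congr 1
  ring

/-- for `α > (d-1)/d` the bound is strictly smaller than the Hölder bound `(1 - α) d`. -/
lemma bigExp_lt {d : ℕ} (hd : 1 ≤ d) {α : ℝ} (hα0 : 0 < α) (hα : ((d : ℝ) - 1) / d < α)
    (hα1 : α < 1) : bigExp d α / 2 < (1 - α) * d := by
  have hd' : (1 : ℝ) ≤ d := by exact_mod_cast hd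
  rw [div_lt_iff₀ (by linarith)] at hα
  rw [bigExp, mul_div_assoc]
  apply mul_lt_mul_of_pos_left _ (by linarith)
  rw [div_lt_iff₀ two_pos, max_lt_iff]
  constructor
  · rw [div_lt_iff₀ hα0]
    nlinarith
  · nlinarith

end Pool.MP74738e
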