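import Mathlib
import Pool.Agent.Work.MP_74738e_an.Core

namespace Pool.MP74738e

open Filter Topology Set Metric MeasureTheory Module
open scoped ENNReal NNReal

/-- packing in a finite-dimensional normed space -/
lemma euclid_packing {E : Type*} [NormedAddCommGroup E] [NormedSpace ℝ E] [FiniteDimensional ℝ E]
    (x : E) {w R : ℝ} (hw : 0 < w) (hR : 0 ≤ R)
    (s : Finset E) (hs : ∀ c ∈ s, dist c x ≤ R)
    (h : ∀ c ∈ s, ∀ e ∈ s, c ≠ e → w ≤ dist c e) :
    (s.card : ℝ) ≤ (2 * R / w + 1) ^ finrank ℝ E := by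
  borelize E
  let μ : Measure E := Measure.addHaar
  set δ : ℝ := w / 2 with hδ
  set ρ : ℝ := R + w / 2 with hρ
  have ρpos : 0 < ρ := by positivity
  have δpos : 0 < δ := by positivity
  set A := ⋃ c ∈ s, ball c δ with hA
  have D : (s : Set E).PairwiseDisjoint (fun c => ball c δ) := by
    intro c hc e he hce
    apply ball_disjoint_ball
    have := h c hc e he hce
    linarith
  have A_subset : A ⊆ ball x ρ := by
    refine iUnion₂_subset fun c hc => ?_
    apply ball_subset_ball'
    have := hs c hc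
    linarith
  have I :
    (s.card : ℝ≥0∞) * ENNReal.ofReal (δ ^ finrank ℝ E) * μ (ball 0 1) ≤
      ENNReal.ofReal (ρ ^ finrank ℝ E) * μ (ball 0 1) :=
    calc
      (s.card : ℝ≥0∞) * ENNReal.ofReal (δ ^ finrank ℝ E) * μ (ball 0 1)
          = μ A := by
        rw [hA, measure_biUnion_finset D fun c _ => measurableSet_ball]
        simp only [μ.addHaar_ball_of_pos _ δpos]
        simp only [Finset.sum_const, nsmul_eq_mul, mul_assoc]
      _ ≤ μ (ball x ρ) := measure_mono A_subset
      _ = ENNReal.ofReal (ρ ^ finrank ℝ E) * μ (ball 0 1) := by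
        simp only [μ.addHaar_ball_of_pos _ ρpos]
  have J : (s.card : ℝ≥0∞) * ENNReal.ofReal (δ ^ finrank ℝ E) ≤
      ENNReal.ofReal (ρ ^ finrank ℝ E) :=
    (ENNReal.mul_le_mul_iff_left (measure_ball_pos _ _ zero_lt_one).ne' measure_ball_lt_top.ne).1 I
  have J' : (s.card : ℝ) * δ ^ finrank ℝ E ≤ ρ ^ finrank ℝ E := by
    have := ENNReal.toReal_le_of_le_ofReal (pow_nonneg ρpos.le _) J
    simp only [ENNReal.toReal_mul, ENNReal.toReal_natCast] at this
    rwa [ENNReal.toReal_ofReal (by positivity)] at this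
  have e1 : 2 * R / w + 1 = ρ / δ := by
    rw [hρ, hδ]
    field_simp
  rw [e1, div_pow, le_div_iff₀ (by positivity)]
  exact J'

/-- Locally bi-Lipschitz to the normed space `E`. -/
def LocEuclid (E : Type*) [NormedAddCommGroup E] [NormedSpace ℝ E] (X : Type*)
    [MetricSpace X] : Prop :=
  ∀ x : X, ∃ (φ : X → E) (K ρ : ℝ), 1 ≤ K ∧ 0 < ρ ∧
    (∀ y ∈ ball x ρ, ∀ z ∈ ball x ρ,
      dist (φ y) (φ z) ≤ K * dist y z ∧ dist y z ≤ K * dist (φ y) (φ z)) ∧
    φ '' ball x ρ ∈ 𝓝 (φ x)

variable {X : Type*} [MetricSpace X] {E' : Type*} [NormedAddCommGroup E'] [NormedSpace ℝ E']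

open Classical in
theorem LocEuclid.packing [CompactSpace X] [FiniteDimensional ℝ E'] (h : LocEuclid E' X) :
    ∃ A, Packing A (finrank ℝ E') X := by
  set d := finrank ℝ E' with hd
  have key : ∃ A : ℝ, ∀ (x : X) (w R : ℝ), 0 < w → w ≤ R → ∀ E : Finset X, (∀ y ∈ E, y ∈ univ) →
      (∀ y ∈ E, dist y x ≤ R) →
      (∀ y ∈ E, ∀ z ∈ E, y ≠ z → w ≤ dist y z) → (E.card : ℝ) ≤ A * (R / w) ^ d := by
    refine IsCompact.induction_on (isCompact_univ (X := X))
      (p := fun s => ∃ A : ℝ, ∀ (x : X) (w R : ℝ), 0 < w → w ≤ R → ∀ E : Finset X,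
        (∀ y ∈ E, y ∈ s) → (∀ y ∈ E, dist y x ≤ R) →
      (∀ y ∈ E, ∀ z ∈ E, y ≠ z → w ≤ dist y z) → (E.card : ℝ) ≤ A * (R / w) ^ d) ?_ ?_ ?_ ?_
    · refine ⟨0, fun x w R hw hwR E hE _ _ => ?_⟩
      have : E = ∅ := Finset.eq_empty_iff_forall_notMem.mpr fun y hy => hE y hy
      simp [this]
    · rintro s t hst ⟨A, hA⟩
      exact ⟨A, fun x w R hw hwR E hE => hA x w R hw hwR E (fun y hy => hst (hE y hy))⟩
    · rintro s t ⟨A1, h1⟩ ⟨A2, h2⟩
      refine ⟨A1 + A2, fun x w R hw hwR E hE hE1 hE2 => ?_⟩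
      rw [← Finset.card_filter_add_card_filter_not (s := E) (p := fun y => y ∈ s)]
      push_cast
      rw [add_mul]
      apply add_le_add
      · exact h1 x w R hw hwR _ (fun y hy => (Finset.mem_filter.mp hy).2)
          (fun y hy => hE1 y (Finset.mem_filter.mp hy).1)
          (fun y hy z hz => hE2 y (Finset.mem_filter.mp hy).1 z (Finset.mem_filter.mp hz).1)
      · refine h2 x w R hw hwR _ (fun y hy => ?_)
          (fun y hy => hE1 y (Finset.mem_filter.mp hy).1)
          (fun y hy z hz => hE2 y (Finset.mem_filter.mp hy).1 z (Finset.mem_filter.mp hz).1)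
        obtain ⟨h3, h4⟩ := Finset.mem_filter.mp hy
        exact (hE y h3).resolve_left h4
    · intro x _
      obtain ⟨φ, K, ρ, hK, hρ, hφ, -⟩ := h x
      refine ⟨ball x ρ, mem_nhdsWithin_of_mem_nhds (ball_mem_nhds x hρ), (4 * K ^ 2 + 1) ^ d, ?_⟩
      intro y w R hw hwR E hE hE1 hE2
      have hR : 0 < R := by linarith
      have hK0 : 0 < K := by linarith
      rcases E.eq_empty_or_nonempty with rfl | ⟨e, he⟩
      · simp
        positivity
      have hinj : Set.InjOn φ (E : Set X) := by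
        intro a ha b hb hab
        have := (hφ a (hE a ha) b (hE b hb)).2
        rw [hab, dist_self, mul_zero] at this
        exact dist_le_zero.mp this
      rw [← Finset.card_image_of_injOn hinj]
      have h5 := euclid_packing (φ e) (w := w / K) (R := K * (2 * R)) (by positivity)
        (by positivity) (E.image φ) ?_ ?_
      · refine h5.trans ?_
        rw [← mul_pow]
        gcongr
        rw [add_mul]
        apply add_le_add
        · apply le_of_eq
          field_simp
          ring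
        · rw [one_mul, le_div_iff₀ hw]
          linarith
      · intro c hc
        obtain ⟨a, ha, rfl⟩ := Finset.mem_image.mp hc
        refine ((hφ a (hE a ha) e (hE e he)).1).trans ?_
        gcongr
        calc dist a e ≤ dist a y + dist y e := dist_triangle _ _ _
          _ ≤ R + R := by
            gcongr
            · exact hE1 a ha
            · rw [dist_comm]; exact hE1 e he
          _ = 2 * R := by ring
      · intro c hc c' hc' hne
        obtain ⟨a, ha, rfl⟩ := Finset.mem_image.mp hc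
        obtain ⟨b, hb, rfl⟩ := Finset.mem_image.mp hc'
        have hab : a ≠ b := fun hab => hne (by rw [hab])
        rw [div_le_iff₀ hK0, mul_comm]
        exact (hE2 a ha b hb hab).trans (hφ a (hE a ha) b (hE b hb)).2
  obtain ⟨A, hA⟩ := key
  exact ⟨A, fun x w R hw hwR E hE1 hE2 => hA x w R hw hwR E (fun y _ => mem_univ y) hE1 hE2⟩

theorem LocEuclid.llc [CompactSpace X] (h : LocEuclid E' X) :
    ∃ lam r0 : ℝ, 2 ≤ lam ∧ 0 < r0 ∧ LLC lam r0 X := by
  have key : ∃ lam r0 : ℝ, 2 ≤ lam ∧ 0 < r0 ∧ ∀ ε : ℝ, 0 < ε → ε < r0 → ∀ x ∈ (univ : Set X),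
      ∃ Q : Set X, IsPreconnected Q ∧ closedBall x (2 * ε) ⊆ Q ∧ Q ⊆ closedBall x (lam * ε) := by
    refine IsCompact.induction_on (isCompact_univ (X := X))
      (p := fun s => ∃ lam r0 : ℝ, 2 ≤ lam ∧ 0 < r0 ∧ ∀ ε : ℝ, 0 < ε → ε < r0 → ∀ x ∈ s,
      ∃ Q : Set X, IsPreconnected Q ∧ closedBall x (2 * ε) ⊆ Q ∧ Q ⊆ closedBall x (lam * ε))
      ?_ ?_ ?_ ?_
    · exact ⟨2, 1, le_rfl, one_pos, fun ε _ _ x hx => absurd hx (notMem_empty x)⟩
    · rintro s t hst ⟨lam, r0, h1, h2, h3⟩
      exact ⟨lam, r0, h1, h2, fun ε h4 h5 x hx => h3 ε h4 h5 x (hst hx)⟩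
    · rintro s t ⟨lam, r0, h1, h2, h3⟩ ⟨lam', r0', h1', h2', h3'⟩
      refine ⟨max lam lam', min r0 r0', le_max_of_le_left h1, lt_min h2 h2', ?_⟩
      intro ε hε hε1 x hx
      rcases hx with hx | hx
      · obtain ⟨Q, q1, q2, q3⟩ := h3 ε hε (hε1.trans_le (min_le_left _ _)) x hx
        refine ⟨Q, q1, q2, q3.trans (closedBall_subset_closedBall ?_)⟩
        gcongr
        exact le_max_left _ _
      · obtain ⟨Q, q1, q2, q3⟩ := h3' ε hε (hε1.trans_le (min_le_right _ _)) x hx
        refine ⟨Q, q1, q2, q3.trans (closedBall_subset_closedBall ?_)⟩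
        gcongr
        exact le_max_right _ _
    · intro x _
      obtain ⟨φ, K, ρ₀, hK, hρ₀, hφ₀, himg₀⟩ := h x
      have hK0 : 0 < K := by linarith
      obtain ⟨η, hη, himg₁⟩ := Metric.mem_nhds_iff.mp himg₀
      set ρ : ℝ := min ρ₀ η with hρdef
      have hρ : 0 < ρ := lt_min hρ₀ hη
      have hρρ₀ : ball x ρ ⊆ ball x ρ₀ := ball_subset_ball (min_le_left _ _)
      have hφ : ∀ y ∈ ball x ρ₀, ∀ z ∈ ball x ρ₀,
        dist (φ y) (φ z) ≤ K * dist y z ∧ dist y z ≤ K * dist (φ y) (φ z) := hφ₀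
      have himg : ball (φ x) ρ ⊆ φ '' ball x ρ₀ :=
        (ball_subset_ball (min_le_right _ _)).trans himg₁
      refine ⟨ball x (ρ / (2 * K)), mem_nhdsWithin_of_mem_nhds (ball_mem_nhds x (by positivity)),
        2 * K ^ 2, ρ / (4 * K), by nlinarith, by positivity, ?_⟩
      intro ε hε hε1 y hy
      rw [mem_ball] at hy
      have hKy : K * dist y x < ρ / 2 := by
        rw [lt_div_iff₀ (by positivity)] at hy
        linarith
      have hKε : K * (2 * ε) < ρ / 2 := by
        rw [lt_div_iff₀ (by positivity)] at hε1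
        linarith
      have hyρ : y ∈ ball x ρ₀ := by
        apply hρρ₀
        rw [mem_ball]
        nlinarith [dist_nonneg (x := y) (y := x)]
      have hxρ : x ∈ ball x ρ₀ := mem_ball_self hρ₀
      have hinv : ∀ v ∈ ball (φ x) ρ, ∃ z ∈ ball x ρ₀, φ z = v := fun v hv => himg hv
      have : Nonempty X := ⟨x⟩
      choose! g hg1 hg2 using hinv
      have hsub : closedBall (φ y) (K * (2 * ε)) ⊆ ball (φ x) ρ := by
        intro v hv
        rw [mem_closedBall] at hv
        rw [mem_ball]
        calc dist v (φ x) ≤ dist v (φ y) + dist (φ y) (φ x) := dist_triangle _ _ _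
          _ ≤ K * (2 * ε) + K * dist y x := by
            gcongr
            exact (hφ y hyρ x hxρ).1
          _ < ρ := by linarith
      have hgK : ∀ v ∈ ball (φ x) ρ, ∀ z ∈ ball x ρ₀, dist (g v) z ≤ K * dist v (φ z) := by
        intro v hv z hz
        have := (hφ (g v) (hg1 v hv) z hz).2
        rwa [hg2 v hv] at this
      have hgcont : ContinuousOn g (ball (φ x) ρ) := by
        intro v hv
        rw [ContinuousWithinAt, tendsto_iff_dist_tendsto_zero]
        have h1 : Tendsto (fun u => K * dist u v) (𝓝[ball (φ x) ρ] v) (𝓝 (K * 0)) :=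
          ((tendsto_iff_dist_tendsto_zero.mp tendsto_id).const_mul K).mono_left nhdsWithin_le_nhds
        rw [mul_zero] at h1
        refine squeeze_zero' (Eventually.of_forall fun _ => dist_nonneg) ?_ h1
        filter_upwards [self_mem_nhdsWithin] with u hu
        have := hgK u hu (g v) (hg1 v hv)
        rwa [hg2 v hv] at this
      refine ⟨g '' closedBall (φ y) (K * (2 * ε)), ?_, ?_, ?_⟩
      · exact (convex_closedBall _ _).isPreconnected.image g (hgcont.mono hsub)
      · intro z hz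
        rw [mem_closedBall] at hz
        have hzρ : z ∈ ball x ρ₀ := by
          apply hρρ₀
          rw [mem_ball]
          calc dist z x ≤ dist z y + dist y x := dist_triangle _ _ _
            _ ≤ 2 * ε + dist y x := by gcongr
            _ < ρ := by nlinarith [dist_nonneg (x := y) (y := x)]
        have hzc : φ z ∈ closedBall (φ y) (K * (2 * ε)) := by
          rw [mem_closedBall]
          exact ((hφ z hzρ y hyρ).1).trans (by gcongr)
        refine ⟨φ z, hzc, ?_⟩
        have := hgK (φ z) (hsub hzc) z hzρ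
        rw [dist_self, mul_zero] at this
        exact dist_le_zero.mp this
      · rintro _ ⟨v, hv, rfl⟩
        rw [mem_closedBall]
        refine (hgK v (hsub hv) y hyρ).trans ?_
        rw [mem_closedBall] at hv
        calc K * dist v (φ y) ≤ K * (K * (2 * ε)) := by gcongr
          _ = 2 * K ^ 2 * ε := by ring
  obtain ⟨lam, r0, h1, h2, h3⟩ := key
  exact ⟨lam, r0, h1, h2, fun ε hε hε1 x => h3 ε hε hε1 x (mem_univ x)⟩

end Pool.MP74738e
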