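import Mathlib
import Pool.Agent.Work.MP_74738e_an.Charts

namespace Pool.MP74738e

open Filter Topology Set Metric MeasureTheory Module Manifold Bundle
open scoped ENNReal NNReal ContDiff Manifold

section general

variable
  {E : Type*} [NormedAddCommGroup E] [NormedSpace ℝ E]
  {H : Type*} [TopologicalSpace H] (I : ModelWithCorners ℝ E H)
  {M : Type*} [TopologicalSpace M] [ChartedSpace H M]
  [RiemannianBundle (fun (x : M) ↦ TangentSpace I x)]
  [IsManifold I 1 M] [IsContinuousRiemannianBundle E (fun (x : M) ↦ TangentSpace I x)]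

attribute [local instance] normedAddCommGroupTangentSpaceVectorSpace
attribute [local instance] normedSpaceTangentSpaceVectorSpace

set_option backward.isDefEq.respectTransparency false in
/-- two-point version of `eventually_riemannianEDist_le_edist_extChartAt` -/
lemma riem_le_edist (x : M) :
    ∃ C > (0 : ℝ≥0), ∃ u ∈ 𝓝 x, ∀ y ∈ u, ∀ z ∈ u,
    riemannianEDist I y z ≤ C * edist (extChartAt I x y) (extChartAt I x z) := by
  rcases eventually_enorm_mfderivWithin_symm_extChartAt_lt I x with ⟨C, C_pos, hC⟩
  refine ⟨C, C_pos, ?_⟩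
  obtain ⟨r, r_pos, hr⟩ : ∃ r > 0,
      ball (extChartAt I x x) r ∩ range I ⊆ (extChartAt I x).target ∩
        {y | ‖mfderiv[range I] (extChartAt I x).symm y‖ₑ < C} :=
    mem_nhdsWithin_iff.1 (inter_mem (extChartAt_target_mem_nhdsWithin x) hC)
  have A : (extChartAt I x) ⁻¹' (ball (extChartAt I x x) r ∩ range I) ∈ 𝓝 x := by
    apply extChartAt_preimage_mem_nhds_of_mem_nhdsWithin (by simp)
    rw [inter_comm]
    exact inter_mem_nhdsWithin _ (ball_mem_nhds _ r_pos)
  refine ⟨_, inter_mem A (chart_source_mem_nhds H x), ?_⟩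
  rintro y ⟨hy, h'y⟩ z ⟨hz, h'z⟩
  let η := ContinuousAffineMap.lineMap (R := ℝ) (extChartAt I x y) (extChartAt I x z)
  set γ := (extChartAt I x).symm ∘ η
  have hη : Icc 0 1 ⊆ ⇑η ⁻¹' ((extChartAt I x).target ∩
        {y | ‖mfderiv[range I] (extChartAt I x).symm y‖ₑ < C}) := by
    simp only [← image_subset_iff, ContinuousAffineMap.coe_lineMap_eq,
     ← segment_eq_image_lineMap, η]
    apply Subset.trans _ hr
    exact ((convex_ball _ _).inter I.convex_range).segment_subset hy hz
  simp only [preimage_inter, subset_inter_iff] at hη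
  have η_smooth : CMDiff[Icc 0 1] 1 η := by
    apply ContMDiff.contMDiffOn
    rw [contMDiff_iff_contDiff]
    exact ContinuousAffineMap.contDiff _
  have : riemannianEDist I y z ≤ pathELength I γ 0 1 := by
    apply riemannianEDist_le_pathELength _ _ _ zero_le_one
    · exact (contMDiffOn_extChartAt_symm x).comp η_smooth hη.1
    · simp [γ, η, ContinuousAffineMap.coe_lineMap_eq, h'y]
    · simp [γ, η, ContinuousAffineMap.coe_lineMap_eq, h'z]
  apply this.trans
  rw [← lintegral_fderiv_lineMap_eq_edist, pathELength_eq_lintegral_mfderivWithin_Icc,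
    ← lintegral_const_mul' _ _ ENNReal.coe_ne_top]
  apply setLIntegral_mono' measurableSet_Icc (fun t ht ↦ ?_)
  have : mfderiv[Icc 0 1] γ t =
      (mfderiv[range I] (extChartAt I x).symm (η t)) ∘L (mfderiv[Icc 0 1] η t) := by
    apply mfderivWithin_comp
    · exact mdifferentiableWithinAt_extChartAt_symm (hη.1 ht)
    · exact η_smooth.mdifferentiableOn one_ne_zero t ht
    · exact hη.1.trans (preimage_mono (extChartAt_target_subset_range x))
    · rw [uniqueMDiffWithinAt_iff_uniqueDiffWithinAt]
      exact uniqueDiffOn_Icc zero_lt_one t ht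
  have : mfderiv[Icc 0 1] γ t 1 =
      (mfderiv[range I] (extChartAt I x).symm (η t)) (mfderiv[Icc 0 1] η t 1) := congr($this 1)
  rw [this]
  apply (ContinuousLinearMap.le_opENorm _ _).trans
  gcongr
  · exact (hη.2 ht).le
  · simp only [mfderivWithin_eq_fderivWithin]
    exact le_of_eq rfl

set_option backward.isDefEq.respectTransparency false in
/-- the other two-point bound: the chart is Lipschitz for the Riemannian distance -/
lemma edist_le_riem [RegularSpace M] (x : M) :
    ∃ C > (0 : ℝ≥0), ∃ u ∈ 𝓝 x, ∀ y ∈ u, ∀ z ∈ u,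
    edist (extChartAt I x y) (extChartAt I x z) ≤ C * riemannianEDist I y z := by
  rcases eventually_enorm_mfderiv_extChartAt_lt I x with ⟨C, C_pos, hC⟩
  refine ⟨C, C_pos, ?_⟩
  obtain ⟨c, c_pos, hc⟩ := setOfPred_riemannianEDist_lt_subset_nhds I
    (inter_mem hC (chart_source_mem_nhds H x))
  have c4 : (0 : ℝ≥0∞) < (c / 4 : ℝ≥0) := by
    have : 0 < c / 4 := by positivity
    exact_mod_cast this
  refine ⟨_, eventually_riemannianEDist_lt I x c4, ?_⟩
  intro y hy z hz
  simp only [mem_ofPred_eq] at hy hz
  have hyz : riemannianEDist I y z < (c / 2 : ℝ≥0) := by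
    calc riemannianEDist I y z ≤ riemannianEDist I y x + riemannianEDist I x z :=
          riemannianEDist_triangle
      _ < (c / 4 : ℝ≥0) + (c / 4 : ℝ≥0) := by
          apply ENNReal.add_lt_add _ hz
          rwa [riemannianEDist_comm]
      _ = (c / 2 : ℝ≥0) := by
          rw [← ENNReal.coe_add]
          congr 1
          rw [← add_div, div_eq_div_iff (by norm_num) (by norm_num)]
          ring
  -- bound by the length of any short path
  have hmain : ∀ r : ℝ≥0∞, riemannianEDist I y z < r → r ≤ (c / 2 : ℝ≥0) →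
      edist (extChartAt I x y) (extChartAt I x z) ≤ C * r := by
    intro r hr hrc
    rcases exists_lt_locally_constant_of_riemannianEDist_lt hr zero_lt_one
      with ⟨γ, hγy, hγz, γ_smooth, hγ, -⟩
    have hmem : ∀ t ∈ Icc (0 : ℝ) 1, γ t ∈ {y | ‖mfderiv% (extChartAt I x) y‖ₑ < C} ∩
        (chartAt H x).source := by
      intro t ht
      apply hc
      simp only [mem_ofPred_eq]
      have h1 : riemannianEDist I y (γ t) ≤ pathELength I γ 0 t :=
        riemannianEDist_le_pathELength γ_smooth.contMDiffOn hγy rfl ht.1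
      have h2 : pathELength I γ 0 t ≤ pathELength I γ 0 1 := pathELength_mono le_rfl ht.2
      calc riemannianEDist I x (γ t) ≤ riemannianEDist I x y + riemannianEDist I y (γ t) :=
            riemannianEDist_triangle
        _ < (c / 4 : ℝ≥0) + (c / 2 : ℝ≥0) :=
            ENNReal.add_lt_add hy (h1.trans_lt (h2.trans_lt (hγ.trans_le hrc)))
        _ ≤ c := by
            rw [← ENNReal.coe_add, ENNReal.coe_le_coe]
            have : c / 4 + c / 2 = 3 / 4 * c := by
              rw [div_eq_mul_inv, div_eq_mul_inv, ← mul_add, mul_comm]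
              congr 1
              norm_num
            rw [this]
            calc 3 / 4 * c ≤ 1 * c := by
                  gcongr
                  rw [div_le_one (by norm_num)]
                  norm_num
              _ = c := one_mul c
    let γ' := extChartAt I x ∘ γ
    have hC1 : CMDiff[Icc 0 1] 1 γ' :=
      contMDiffOn_extChartAt.comp (I' := I) (t := (chartAt H x).source)
        γ_smooth.contMDiffOn (fun t' ht' ↦ (hmem t' ht').2)
    calc edist (extChartAt I x y) (extChartAt I x z) = ‖γ' 1 - γ' 0‖ₑ := by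
          rw [edist_comm, edist_eq_enorm_sub]
          simp [γ', hγy, hγz]
      _ ≤ ∫⁻ t' in Icc 0 1, ‖derivWithin γ' (Icc 0 1) t'‖ₑ := by
        apply enorm_sub_le_lintegral_derivWithin_Icc_of_contDiffOn_Icc _ zero_le_one
        rwa [← contMDiffOn_iff_contDiffOn]
      _ = ∫⁻ t' in Icc 0 1, ‖mfderiv[Icc 0 1] γ' t' 1‖ₑ := by
        simp_rw [← fderivWithin_derivWithin, mfderivWithin_eq_fderivWithin]
        rfl
      _ ≤ ∫⁻ t' in Icc 0 1, C * ‖mfderiv[Icc 0 1] γ t' 1‖ₑ := by
        apply setLIntegral_mono' measurableSet_Icc (fun t' ht' ↦ ?_)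
        have : mfderiv[Icc 0 1] γ' t' =
            (mfderiv% (extChartAt I x) (γ t')) ∘L (mfderiv[Icc 0 1] γ t') := by
          apply mfderiv_comp_mfderivWithin
          · refine mdifferentiableAt_extChartAt ?_
            exact (hmem t' ht').2
          · exact (γ_smooth.mdifferentiable one_ne_zero).mdifferentiableOn _ ht'
          · rw [uniqueMDiffWithinAt_iff_uniqueDiffWithinAt]
            exact uniqueDiffOn_Icc one_pos _ ht'
        have : mfderiv[Icc 0 1] γ' t' 1 =
            (mfderiv% (extChartAt I x) (γ t')) (mfderiv[Icc 0 1] γ t' 1) :=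
          congr($this 1)
        rw [this]
        apply (ContinuousLinearMap.le_opENorm _ _).trans
        gcongr
        exact (hmem t' ht').1.le
      _ = C * pathELength I γ 0 1 := by
        rw [lintegral_const_mul' _ _ ENNReal.coe_ne_top,
            pathELength_eq_lintegral_mfderivWithin_Icc]
      _ ≤ C * r := by
        gcongr
  have C_ne : (C : ℝ≥0∞) ≠ 0 := by exact_mod_cast C_pos.ne'
  rw [mul_comm, ← ENNReal.div_le_iff_le_mul (Or.inl C_ne) (Or.inl ENNReal.coe_ne_top)]
  refine le_of_forall_gt_imp_ge_of_dense fun r hr => ?_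
  have h1 := hmain (min r (c / 2 : ℝ≥0)) (lt_min hr hyz) (min_le_right _ _)
  rw [ENNReal.div_le_iff_le_mul (Or.inl C_ne) (Or.inl ENNReal.coe_ne_top), mul_comm]
  exact h1.trans (by gcongr; exact min_le_left _ _)

end general

end Pool.MP74738e
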