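import Mathlib
import Pool.Agent.Work.MP_74738e_an.Core

namespace Pool.MP74738e

open Filter Topology Set Metric
open scoped ENNReal NNReal

section defs

variable {X : Type*} [MetricSpace X] {N : ℕ}

/-- The extended distance `d_α` of the problem file between two maps `T, S : X → X`, seen as maps
into `ℝ^N` through `Φ : X → ℝ^N`: the supremum norm of `Φ ∘ T - Φ ∘ S` plus its `α`-Hölder
seminorm. -/
noncomputable def dAlpha (α : ℝ) (Φ : X → EuclideanSpace ℝ (Fin N)) (T S : X → X) : ℝ≥0∞ :=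
  (⨆ x, ‖Φ (T x) - Φ (S x)‖ₑ) +
    ⨆ p : {p : X × X // p.1 ≠ p.2},
      ‖(Φ (T p.1.1) - Φ (S p.1.1)) - (Φ (T p.1.2) - Φ (S p.1.2))‖ₑ /
        ENNReal.ofReal (dist p.1.1 p.1.2 ^ α)

/-- The `α`-Hölder maps `X → X`; the embedding `Φ` is only used for the distance. -/
def HolderMaps (α : ℝ) {X : Type*} [MetricSpace X] {N : ℕ} (_Φ : X → EuclideanSpace ℝ (Fin N)) :
    Type _ :=
  {T : X → X // ∃ C : ℝ, ∀ x y, dist (T x) (T y) ≤ C * dist x y ^ α}

lemma dAlpha_self (α : ℝ) (Φ : X → EuclideanSpace ℝ (Fin N)) (T : X → X) :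
    dAlpha α Φ T T = 0 := by
  simp [dAlpha]

lemma dAlpha_comm (α : ℝ) (Φ : X → EuclideanSpace ℝ (Fin N)) (T S : X → X) :
    dAlpha α Φ T S = dAlpha α Φ S T := by
  unfold dAlpha
  congr 1
  · congr 1
    ext x
    rw [← enorm_neg]
    congr 1
    abel
  · congr 1
    ext p
    congr 1
    rw [← enorm_neg]
    congr 1
    abel

lemma dAlpha_triangle (α : ℝ) (Φ : X → EuclideanSpace ℝ (Fin N)) (T S R : X → X) :
    dAlpha α Φ T R ≤ dAlpha α Φ T S + dAlpha α Φ S R := by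
  unfold dAlpha
  rw [add_add_add_comm]
  apply add_le_add
  · refine iSup_le fun x => ?_
    calc ‖Φ (T x) - Φ (R x)‖ₑ = ‖(Φ (T x) - Φ (S x)) + (Φ (S x) - Φ (R x))‖ₑ := by
          congr 1; abel
      _ ≤ ‖Φ (T x) - Φ (S x)‖ₑ + ‖Φ (S x) - Φ (R x)‖ₑ := enorm_add_le _ _
      _ ≤ _ := by
        gcongr
        · exact le_iSup (fun x => ‖Φ (T x) - Φ (S x)‖ₑ) x
        · exact le_iSup (fun x => ‖Φ (S x) - Φ (R x)‖ₑ) x
  · refine iSup_le fun p => ?_
    refine le_trans ?_ (add_le_add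
      (le_iSup (fun p : {p : X × X // p.1 ≠ p.2} =>
        ‖(Φ (T p.1.1) - Φ (S p.1.1)) - (Φ (T p.1.2) - Φ (S p.1.2))‖ₑ /
        ENNReal.ofReal (dist p.1.1 p.1.2 ^ α)) p)
      (le_iSup (fun p : {p : X × X // p.1 ≠ p.2} =>
        ‖(Φ (S p.1.1) - Φ (R p.1.1)) - (Φ (S p.1.2) - Φ (R p.1.2))‖ₑ /
        ENNReal.ofReal (dist p.1.1 p.1.2 ^ α)) p))
    rw [← ENNReal.add_div]
    gcongr
    refine le_trans (le_of_eq ?_) (enorm_add_le _ _)
    congr 1
    abel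

noncomputable instance (α : ℝ) (Φ : X → EuclideanSpace ℝ (Fin N)) :
    PseudoEMetricSpace (HolderMaps α Φ) where
  edist T S := dAlpha α Φ T.1 S.1
  edist_self T := dAlpha_self α Φ T.1
  edist_comm T S := dAlpha_comm α Φ T.1 S.1
  edist_triangle T S R := dAlpha_triangle α Φ T.1 S.1 R.1

/-- The bi-Lipschitz homeomorphisms of `X`. -/
def bilipHomeos (α : ℝ) (Φ : X → EuclideanSpace ℝ (Fin N)) : Set (HolderMaps α Φ) :=
  {T | Function.Bijective T.1 ∧ ∃ K : ℝ, ∀ x y,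
    dist (T.1 x) (T.1 y) ≤ K * dist x y ∧ dist x y ≤ K * dist (T.1 x) (T.1 y)}

/-- The space `𝓛_α`: the `d_α`-closure of the bi-Lipschitz homeomorphisms. -/
def LAlpha (α : ℝ) (Φ : X → EuclideanSpace ℝ (Fin N)) : Set (HolderMaps α Φ) :=
  closure (bilipHomeos α Φ)

end defs

section proofs

variable {X : Type*} [MetricSpace X] {N : ℕ}

lemma edist_def (α : ℝ) (Φ : X → EuclideanSpace ℝ (Fin N)) (T S : HolderMaps α Φ) :
    edist T S = dAlpha α Φ T.1 S.1 := rfl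

lemma norm_sub_le_of_dAlpha {α : ℝ} {Φ : X → EuclideanSpace ℝ (Fin N)} {T S : X → X} {δ : ℝ}
    (hδ : 0 ≤ δ) (h : dAlpha α Φ T S ≤ ENNReal.ofReal δ) (x : X) :
    ‖Φ (T x) - Φ (S x)‖ ≤ δ := by
  have h1 : ‖Φ (T x) - Φ (S x)‖ₑ ≤ ENNReal.ofReal δ :=
    (le_iSup (fun x => ‖Φ (T x) - Φ (S x)‖ₑ) x).trans (le_self_add.trans h)
  rw [← ofReal_norm] at h1
  exact (ENNReal.ofReal_le_ofReal_iff hδ).mp h1

lemma norm_sub_sub_le_of_dAlpha {α : ℝ} {Φ : X → EuclideanSpace ℝ (Fin N)} {T S : X → X} {δ : ℝ}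
    (hδ : 0 ≤ δ) (h : dAlpha α Φ T S ≤ ENNReal.ofReal δ) (x y : X) :
    ‖(Φ (T x) - Φ (S x)) - (Φ (T y) - Φ (S y))‖ ≤ δ * dist x y ^ α := by
  rcases eq_or_ne x y with rfl | hxy
  · simp
    positivity
  have hpos : 0 < dist x y ^ α := Real.rpow_pos_of_pos (dist_pos.mpr hxy) _
  have h1 : ‖(Φ (T x) - Φ (S x)) - (Φ (T y) - Φ (S y))‖ₑ / ENNReal.ofReal (dist x y ^ α) ≤
      ENNReal.ofReal δ := by
    refine le_trans ?_ (le_trans (le_add_self) h)
    exact le_iSup (fun p : {p : X × X // p.1 ≠ p.2} =>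
      ‖(Φ (T p.1.1) - Φ (S p.1.1)) - (Φ (T p.1.2) - Φ (S p.1.2))‖ₑ /
        ENNReal.ofReal (dist p.1.1 p.1.2 ^ α)) ⟨(x, y), hxy⟩
  rw [ENNReal.div_le_iff (by simpa using hpos) ENNReal.ofReal_ne_top, ← ofReal_norm,
    ← ENNReal.ofReal_mul hδ] at h1
  exact (ENNReal.ofReal_le_ofReal_iff (by positivity)).mp h1

lemma dAlpha_le {α : ℝ} {Φ : X → EuclideanSpace ℝ (Fin N)} {T S : X → X} {δ : ℝ}
    (hδ : 0 ≤ δ) (h1 : ∀ x, ‖Φ (T x) - Φ (S x)‖ ≤ δ)
    (h2 : ∀ x y, ‖(Φ (T x) - Φ (S x)) - (Φ (T y) - Φ (S y))‖ ≤ δ * dist x y ^ α) :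
    dAlpha α Φ T S ≤ ENNReal.ofReal (2 * δ) := by
  rw [two_mul, ENNReal.ofReal_add hδ hδ]
  apply add_le_add
  · refine iSup_le fun x => ?_
    rw [← ofReal_norm]
    exact ENNReal.ofReal_le_ofReal (h1 x)
  · refine iSup_le ?_
    rintro ⟨⟨x, y⟩, hxy⟩
    have hpos : 0 < dist x y ^ α := Real.rpow_pos_of_pos (dist_pos.mpr hxy) _
    rw [ENNReal.div_le_iff (by simpa using hpos) ENNReal.ofReal_ne_top, ← ofReal_norm,
      ← ENNReal.ofReal_mul hδ]
    exact ENNReal.ofReal_le_ofReal (h2 x y)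

/-- The space of Hölder maps is complete. -/
theorem complete_holderMaps [CompactSpace X] {α : ℝ} {Φ : X → EuclideanSpace ℝ (Fin N)} {K L : ℝ}
    (hK0 : 0 ≤ K)
    (hK : ∀ x y, dist x y ≤ K * ‖Φ x - Φ y‖) (hL : ∀ x y, ‖Φ x - Φ y‖ ≤ L * dist x y) :
    CompleteSpace (HolderMaps α Φ) := by
  have hcont : Continuous Φ := by
    refine continuous_iff_continuousAt.mpr fun x => ?_
    rw [ContinuousAt, tendsto_iff_norm_sub_tendsto_zero]
    refine squeeze_zero (fun _ => norm_nonneg _) (fun y => hL y x) ?_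
    have : Tendsto (fun y => L * dist y x) (𝓝 x) (𝓝 (L * 0)) :=
      (tendsto_iff_dist_tendsto_zero.mp tendsto_id).const_mul L
    simpa using this
  apply EMetric.complete_of_cauchySeq_tendsto
  intro u hu
  -- pointwise Cauchy
  have hu' : ∀ δ > 0, ∃ n0, ∀ m ≥ n0, ∀ n ≥ n0, dAlpha α Φ (u m).1 (u n).1 ≤ ENNReal.ofReal δ := by
    intro δ hδ
    obtain ⟨n0, hn0⟩ := EMetric.cauchySeq_iff.mp hu (ENNReal.ofReal δ) (by simpa using hδ)
    exact ⟨n0, fun m hm n hn => (hn0 m hm n hn).le⟩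
  have hpt : ∀ x, ∃ y, Tendsto (fun n => Φ ((u n).1 x)) atTop (𝓝 (Φ y)) := by
    intro x
    have hc : CauchySeq (fun n => Φ ((u n).1 x)) := by
      rw [Metric.cauchySeq_iff]
      intro δ hδ
      obtain ⟨n0, hn0⟩ := hu' (δ / 2) (by linarith)
      refine ⟨n0, fun m hm n hn => ?_⟩
      rw [dist_eq_norm]
      have := norm_sub_le_of_dAlpha (by linarith) (hn0 m hm n hn) x
      linarith
    have hclosed : IsClosed (range Φ) := (isCompact_range hcont).isClosed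
    obtain ⟨z, hz⟩ := cauchySeq_tendsto_of_complete hc
    obtain ⟨y, rfl⟩ := hclosed.mem_of_tendsto hz (Eventually.of_forall fun n => mem_range_self _)
    exact ⟨y, hz⟩
  choose T hT using hpt
  -- uniform estimates
  have hest : ∀ δ > 0, ∃ n0, ∀ n ≥ n0, (∀ x, ‖Φ ((u n).1 x) - Φ (T x)‖ ≤ δ) ∧
      ∀ x y, ‖(Φ ((u n).1 x) - Φ (T x)) - (Φ ((u n).1 y) - Φ (T y))‖ ≤ δ * dist x y ^ α := by
    intro δ hδ
    obtain ⟨n0, hn0⟩ := hu' δ hδ
    refine ⟨n0, fun n hn => ⟨fun x => ?_, fun x y => ?_⟩⟩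
    · have hlim : Tendsto (fun m => ‖Φ ((u n).1 x) - Φ ((u m).1 x)‖) atTop
          (𝓝 ‖Φ ((u n).1 x) - Φ (T x)‖) := (tendsto_const_nhds.sub (hT x)).norm
      refine le_of_tendsto hlim ?_
      filter_upwards [eventually_ge_atTop n0] with m hm
      exact norm_sub_le_of_dAlpha hδ.le (hn0 n hn m hm) x
    · have hlim : Tendsto (fun m => ‖(Φ ((u n).1 x) - Φ ((u m).1 x)) -
          (Φ ((u n).1 y) - Φ ((u m).1 y))‖) atTop
          (𝓝 ‖(Φ ((u n).1 x) - Φ (T x)) - (Φ ((u n).1 y) - Φ (T y))‖) :=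
        ((tendsto_const_nhds.sub (hT x)).sub (tendsto_const_nhds.sub (hT y))).norm
      refine le_of_tendsto hlim ?_
      filter_upwards [eventually_ge_atTop n0] with m hm
      exact norm_sub_sub_le_of_dAlpha hδ.le (hn0 n hn m hm) x y
  -- the limit is Hölder
  have hTH : ∃ C : ℝ, ∀ x y, dist (T x) (T y) ≤ C * dist x y ^ α := by
    obtain ⟨n0, hn0⟩ := hest 1 one_pos
    obtain ⟨-, h2⟩ := hn0 n0 le_rfl
    obtain ⟨C, hC⟩ := (u n0).2
    have hL' : 0 ≤ |L| := abs_nonneg L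
    refine ⟨K * (|L| * C + 1), fun x y => ?_⟩
    have h3 : ‖Φ (T x) - Φ (T y)‖ ≤ (|L| * C + 1) * dist x y ^ α := by
      calc ‖Φ (T x) - Φ (T y)‖ = ‖(Φ ((u n0).1 x) - Φ ((u n0).1 y)) -
            ((Φ ((u n0).1 x) - Φ (T x)) - (Φ ((u n0).1 y) - Φ (T y)))‖ := by
            congr 1; abel
        _ ≤ ‖Φ ((u n0).1 x) - Φ ((u n0).1 y)‖ +
            ‖(Φ ((u n0).1 x) - Φ (T x)) - (Φ ((u n0).1 y) - Φ (T y))‖ := norm_sub_le _ _
        _ ≤ |L| * (C * dist x y ^ α) + 1 * dist x y ^ α := by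
            gcongr
            · refine (hL _ _).trans ?_
              calc L * dist ((u n0).1 x) ((u n0).1 y) ≤ |L| * dist ((u n0).1 x) ((u n0).1 y) := by
                    gcongr
                    exact le_abs_self L
                _ ≤ |L| * (C * dist x y ^ α) := by
                    gcongr
                    exact hC x y
            · exact h2 x y
        _ = (|L| * C + 1) * dist x y ^ α := by ring
    calc dist (T x) (T y) ≤ K * ‖Φ (T x) - Φ (T y)‖ := hK _ _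
      _ ≤ K * ((|L| * C + 1) * dist x y ^ α) := by gcongr
      _ = K * (|L| * C + 1) * dist x y ^ α := by ring
  refine ⟨⟨T, hTH⟩, ?_⟩
  rw [EMetric.tendsto_atTop]
  intro ε hε
  obtain ⟨δ, hδ0, hδε⟩ : ∃ δ : ℝ, 0 < δ ∧ ENNReal.ofReal (2 * δ) < ε := by
    rcases eq_or_ne ε ⊤ with rfl | hne
    · exact ⟨1, one_pos, ENNReal.ofReal_lt_top⟩
    · have hpos : 0 < ε.toReal := ENNReal.toReal_pos hε.ne' hne
      refine ⟨ε.toReal / 4, by positivity, ?_⟩
      rw [ENNReal.ofReal_lt_iff_lt_toReal (by positivity) hne]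
      linarith
  obtain ⟨n0, hn0⟩ := hest δ hδ0
  refine ⟨n0, fun n hn => lt_of_le_of_lt ?_ hδε⟩
  exact dAlpha_le hδ0.le (hn0 n hn).1 (hn0 n hn).2

lemma id_mem_bilip [BoundedSpace X] {α : ℝ} (hα : 0 < α) (hα1 : α < 1)
    (Φ : X → EuclideanSpace ℝ (Fin N)) :
    ∃ T : HolderMaps α Φ, T ∈ bilipHomeos α Φ := by
  obtain ⟨D, hD⟩ : ∃ D : ℝ, ∀ x y : X, dist x y ≤ D := by
    obtain ⟨D, hD⟩ := (Metric.isBounded_iff.mp (Bornology.IsBounded.all (univ : Set X)))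
    exact ⟨D, fun x y => hD (mem_univ x) (mem_univ y)⟩
  refine ⟨⟨id, max D 0 ^ (1 - α), fun x y => ?_⟩, Function.bijective_id, 1, fun x y => ?_⟩
  · simp only [id]
    rcases eq_or_ne x y with rfl | hxy
    · simp [Real.zero_rpow hα.ne']
    · have hpos : 0 < dist x y := dist_pos.mpr hxy
      calc dist x y = dist x y ^ (1 - α) * dist x y ^ α := by
            rw [← Real.rpow_add hpos]
            simp
        _ ≤ max D 0 ^ (1 - α) * dist x y ^ α := by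
            gcongr
            exact le_max_of_le_left (hD x y)
  · simp

/-- Every map in `𝓛_α` satisfies the improved bound. -/
theorem mem_LAlpha_bound [CompactSpace X] [Nonempty X] {d : ℕ} {A lam r0 α : ℝ}
    (hA : Packing A d X) (hlam : 2 ≤ lam) (hr0 : 0 < r0) (hllc : LLC lam r0 X)
    (hα : 0 < α) (hα1 : α < 1) {Φ : X → EuclideanSpace ℝ (Fin N)} {K L : ℝ}
    (hK0 : 0 ≤ K)
    (hK : ∀ x y, dist x y ≤ K * ‖Φ x - Φ y‖) (hL : ∀ x y, ‖Φ x - Φ y‖ ≤ L * dist x y)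
    (T : HolderMaps α Φ) (hT : T ∈ LAlpha α Φ) :
    upperMdim T.1 ≤ ((bigExp d α / 2 : ℝ) : EReal) := by
  obtain ⟨C, hC⟩ := T.2
  set C' : ℝ := max (K * (|L| * |C| + 1)) |C| with hC'
  have hC'0 : 0 ≤ C' := le_max_of_le_right (abs_nonneg C)
  have hL' : 0 ≤ |L| := abs_nonneg L
  have hCabs : ∀ x y, dist (T.1 x) (T.1 y) ≤ |C| * dist x y ^ α := fun x y =>
    (hC x y).trans (by gcongr; exact le_abs_self C)
  refine core hA hlam hr0 hllc hα hα1 hC'0 T.1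
    (fun x y => (hCabs x y).trans (by gcongr; exact le_max_right _ _)) ?_
  intro ε hε
  set δ : ℝ := min 1 (ε / (K + 1)) with hδ
  have hK1 : 0 < K + 1 := by linarith
  have hδ0 : 0 < δ := lt_min one_pos (by positivity)
  obtain ⟨S, hS, hTS⟩ := EMetric.mem_closure_iff.mp hT (ENNReal.ofReal δ) (by simpa using hδ0)
  rw [edist_def] at hTS
  obtain ⟨hbij, K', hK'⟩ := hS
  have hScont : Continuous S.1 := by
    refine continuous_iff_continuousAt.mpr fun x => ?_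
    rw [ContinuousAt, tendsto_iff_dist_tendsto_zero]
    refine squeeze_zero (fun _ => dist_nonneg) (fun y => (hK' y x).1) ?_
    have : Tendsto (fun y => K' * dist y x) (𝓝 x) (𝓝 (K' * 0)) :=
      (tendsto_iff_dist_tendsto_zero.mp tendsto_id).const_mul K'
    simpa using this
  let e : X ≃ₜ X := Continuous.homeoOfEquivCompactToT2 (f := Equiv.ofBijective S.1 hbij) hScont
  have he : ∀ x, e x = S.1 x := fun x => rfl
  refine ⟨e, fun x y => ?_, fun x => ?_⟩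
  · rw [he, he]
    have h3 : ‖Φ (S.1 x) - Φ (S.1 y)‖ ≤ (|L| * |C| + 1) * dist x y ^ α := by
      calc ‖Φ (S.1 x) - Φ (S.1 y)‖ = ‖(Φ (T.1 x) - Φ (T.1 y)) -
            ((Φ (T.1 x) - Φ (S.1 x)) - (Φ (T.1 y) - Φ (S.1 y)))‖ := by
            congr 1; abel
        _ ≤ ‖Φ (T.1 x) - Φ (T.1 y)‖ +
            ‖(Φ (T.1 x) - Φ (S.1 x)) - (Φ (T.1 y) - Φ (S.1 y))‖ := norm_sub_le _ _
        _ ≤ |L| * (|C| * dist x y ^ α) + 1 * dist x y ^ α := by
            gcongr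
            · refine (hL _ _).trans ?_
              calc L * dist (T.1 x) (T.1 y) ≤ |L| * dist (T.1 x) (T.1 y) := by
                    gcongr
                    exact le_abs_self L
                _ ≤ |L| * (|C| * dist x y ^ α) := by
                    gcongr
                    exact hCabs x y
            · refine (norm_sub_sub_le_of_dAlpha hδ0.le hTS.le x y).trans ?_
              gcongr
              exact min_le_left _ _
        _ = (|L| * |C| + 1) * dist x y ^ α := by ring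
    calc dist (S.1 x) (S.1 y) ≤ K * ‖Φ (S.1 x) - Φ (S.1 y)‖ := hK _ _
      _ ≤ K * ((|L| * |C| + 1) * dist x y ^ α) := by gcongr
      _ = K * (|L| * |C| + 1) * dist x y ^ α := by ring
      _ ≤ C' * dist x y ^ α := by
        gcongr
        exact le_max_left _ _
  · rw [he]
    calc dist (T.1 x) (S.1 x) ≤ K * ‖Φ (T.1 x) - Φ (S.1 x)‖ := hK _ _
      _ ≤ K * δ := by
        gcongr
        exact norm_sub_le_of_dAlpha hδ0.le hTS.le x
      _ ≤ K * (ε / (K + 1)) := by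
        gcongr
        exact min_le_right _ _
      _ ≤ ε := by
        rw [← mul_div_assoc, div_le_iff₀ hK1]
        nlinarith

theorem not_residual [CompactSpace X] [Nonempty X] {d : ℕ} (hd : 1 ≤ d) {A lam r0 α : ℝ}
    (hA : Packing A d X) (hlam : 2 ≤ lam) (hr0 : 0 < r0) (hllc : LLC lam r0 X)
    (hα0 : 0 < α) (hα : ((d : ℝ) - 1) / d < α) (hα1 : α < 1)
    {Φ : X → EuclideanSpace ℝ (Fin N)} {K L : ℝ} (hK0 : 0 ≤ K)
    (hK : ∀ x y, dist x y ≤ K * ‖Φ x - Φ y‖) (hL : ∀ x y, ‖Φ x - Φ y‖ ≤ L * dist x y) :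
    {T : LAlpha α Φ | upperMdim T.1.1 = (((1 - α) * d : ℝ) : EReal)} ∉ residual (LAlpha α Φ) := by
  have hempty : {T : LAlpha α Φ | upperMdim T.1.1 = (((1 - α) * d : ℝ) : EReal)} = ∅ := by
    rw [eq_empty_iff_forall_notMem]
    intro T hT
    have h1 := mem_LAlpha_bound hA hlam hr0 hllc hα0 hα1 hK0 hK hL T.1 T.2
    rw [mem_ofPred_eq] at hT
    rw [hT, EReal.coe_le_coe_iff] at h1
    have h2 := bigExp_lt hd hα0 hα hα1
    linarith
  rw [hempty]
  intro hres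
  have hcomplete := complete_holderMaps (α := α) hK0 hK hL
  have hcl : CompleteSpace (LAlpha α Φ) := by
    apply IsComplete.completeSpace_coe
    exact isClosed_closure.isComplete
  have hdense := dense_of_mem_residual hres
  obtain ⟨T, hT⟩ := id_mem_bilip hα0 hα1 Φ
  obtain ⟨z, hz⟩ := hdense.nonempty_iff.mpr ⟨(⟨T, subset_closure hT⟩ : LAlpha α Φ)⟩
  exact hz

end proofs

end Pool.MP74738e
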