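import Mathlib
import Pool.Agent.Work.MP_74738e_an.Riem
import Pool.Agent.Work.MP_74738e_an.Space

namespace Pool.MP74738e

open Filter Topology Set Metric MeasureTheory Module Manifold Bundle
open scoped ENNReal NNReal ContDiff Manifold

lemma dist_le_of_edist_le {Y Z : Type*} [PseudoMetricSpace Y] [PseudoMetricSpace Z]
    {k : ℝ≥0} {a b : Y} {c e : Z}
    (h : edist a b ≤ k * edist c e) : dist a b ≤ k * dist c e := by
  simp only [edist_nndist] at h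
  norm_cast at h

lemma global_of_local {Y : Type*} [TopologicalSpace Y] [CompactSpace Y] {F G : Y → ℝ}
    (hG : ∀ q, 0 ≤ G q) (h : ∀ p, ∃ C : ℝ, ∀ᶠ q in 𝓝 p, F q ≤ C * G q) :
    ∃ C : ℝ, 0 ≤ C ∧ ∀ q, F q ≤ C * G q := by
  have key : ∃ C : ℝ, 0 ≤ C ∧ ∀ q ∈ (univ : Set Y), F q ≤ C * G q := by
    refine IsCompact.induction_on (isCompact_univ (X := Y))
      (p := fun s => ∃ C : ℝ, 0 ≤ C ∧ ∀ q ∈ s, F q ≤ C * G q) ?_ ?_ ?_ ?_
    · exact ⟨0, le_rfl, fun q hq => absurd hq (notMem_empty q)⟩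
    · rintro s t hst ⟨C, hC, h⟩
      exact ⟨C, hC, fun q hq => h q (hst hq)⟩
    · rintro s t ⟨C, hC, h⟩ ⟨C', hC', h'⟩
      refine ⟨max C C', le_max_of_le_left hC, ?_⟩
      rintro q (hq | hq)
      · exact (h q hq).trans (mul_le_mul_of_nonneg_right (le_max_left _ _) (hG q))
      · exact (h' q hq).trans (mul_le_mul_of_nonneg_right (le_max_right _ _) (hG q))
    · intro p _
      obtain ⟨C, hC⟩ := h p
      refine ⟨{q | F q ≤ C * G q}, mem_nhdsWithin_of_mem_nhds hC, max C 0, le_max_right _ _, ?_⟩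
      intro q hq
      exact (show F q ≤ C * G q from hq).trans
        (mul_le_mul_of_nonneg_right (le_max_left _ _) (hG q))
  obtain ⟨C, hC, h⟩ := key
  exact ⟨C, hC, fun q => h q (mem_univ q)⟩

section

variable {N : ℕ} {E : Type*} [NormedAddCommGroup E] [NormedSpace ℝ E]
  {M : Type*} [MetricSpace M] [ChartedSpace E M]
  [IsManifold 𝓘(ℝ, E) ∞ M] [RiemannianBundle (fun x : M => TangentSpace 𝓘(ℝ, E) x)]

/-- The Riemannian metric on the manifold `M` (a scalar product on each tangent space) is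
smooth. -/
def SmoothMetric (E : Type*) [NormedAddCommGroup E] [NormedSpace ℝ E] (M : Type*) [MetricSpace M]
    [ChartedSpace E M] [IsManifold 𝓘(ℝ, E) ∞ M]
    [RiemannianBundle (fun x : M => TangentSpace 𝓘(ℝ, E) x)] : Prop :=
  IsContMDiffRiemannianBundle 𝓘(ℝ, E) ∞ E (fun x : M => TangentSpace 𝓘(ℝ, E) x)

/-- The distance of `M` is bi-Lipschitz equivalent to the Riemannian distance. -/
def BilipRiem (E : Type*) [NormedAddCommGroup E] [NormedSpace ℝ E] (M : Type*) [MetricSpace M]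
    [ChartedSpace E M] [IsManifold 𝓘(ℝ, E) ∞ M]
    [RiemannianBundle (fun x : M => TangentSpace 𝓘(ℝ, E) x)] : Prop :=
  ∃ K : ℝ≥0, ∀ x y : M, edist x y ≤ K * riemannianEDist 𝓘(ℝ, E) x y ∧
    riemannianEDist 𝓘(ℝ, E) x y ≤ K * edist x y

/-- Smooth embeddings of the compact manifold `M` into the normed space `F`: smooth injective
maps with injective differential at every point. -/
def SmoothEmb (E : Type*) [NormedAddCommGroup E] [NormedSpace ℝ E] {M : Type*} [MetricSpace M]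
    [ChartedSpace E M] {F : Type*} [NormedAddCommGroup F] [NormedSpace ℝ F]
    (Φ : M → F) : Prop :=
  ContMDiff 𝓘(ℝ, E) 𝓘(ℝ, F) ∞ Φ ∧ Function.Injective Φ ∧
    ∀ x, Function.Injective (mfderiv 𝓘(ℝ, E) 𝓘(ℝ, F) Φ x)

/-- a smooth Riemannian metric is continuous -/
lemma continuousRiem (hs : SmoothMetric E M) : IsContinuousRiemannianBundle E
    (fun x : M => TangentSpace 𝓘(ℝ, E) x) := by
  have : IsContMDiffRiemannianBundle 𝓘(ℝ, E) ∞ E (fun x : M => TangentSpace 𝓘(ℝ, E) x) := hs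
  obtain ⟨g, hg, h⟩ := IsContMDiffRiemannianBundle.exists_contMDiff (IB := 𝓘(ℝ, E)) (n := ∞)
    (F := E) (E := fun x : M => TangentSpace 𝓘(ℝ, E) x)
  exact ⟨g, hg.continuous, h⟩

/-- local bi-Lipschitz property of the charts -/
lemma chart_bilip (hs : SmoothMetric E M) (hM : BilipRiem E M) (x : M) :
    ∃ K : ℝ, 1 ≤ K ∧ ∃ ρ > 0, ∀ y ∈ ball x ρ, ∀ z ∈ ball x ρ,
      dist (extChartAt 𝓘(ℝ, E) x y) (extChartAt 𝓘(ℝ, E) x z) ≤ K * dist y z ∧
      dist y z ≤ K * dist (extChartAt 𝓘(ℝ, E) x y) (extChartAt 𝓘(ℝ, E) x z) := by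
  have := continuousRiem hs
  obtain ⟨K, hK⟩ := hM
  obtain ⟨C1, -, u1, hu1, h1⟩ := riem_le_edist 𝓘(ℝ, E) x
  obtain ⟨C2, -, u2, hu2, h2⟩ := edist_le_riem 𝓘(ℝ, E) x
  obtain ⟨ρ, hρ, hball⟩ := Metric.mem_nhds_iff.mp (inter_mem hu1 hu2)
  refine ⟨max 1 (max (C2 * K) (K * C1)), le_max_left _ _, ρ, hρ, ?_⟩
  intro y hy z hz
  constructor
  · have e1 : edist (extChartAt 𝓘(ℝ, E) x y) (extChartAt 𝓘(ℝ, E) x z) ≤
        ((C2 * K : ℝ≥0) : ℝ≥0∞) * edist y z := by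
      rw [ENNReal.coe_mul, mul_assoc]
      refine (h2 y (hball hy).2 z (hball hz).2).trans ?_
      gcongr
      exact (hK y z).2
    refine (dist_le_of_edist_le e1).trans ?_
    gcongr
    push_cast
    exact le_max_of_le_right (le_max_left _ _)
  · have e1 : edist y z ≤
        ((K * C1 : ℝ≥0) : ℝ≥0∞) * edist (extChartAt 𝓘(ℝ, E) x y) (extChartAt 𝓘(ℝ, E) x z) := by
      rw [ENNReal.coe_mul, mul_assoc]
      refine ((hK y z).1).trans ?_
      gcongr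
      exact h1 y (hball hy).1 z (hball hz).1
    refine (dist_le_of_edist_le e1).trans ?_
    gcongr
    push_cast
    exact le_max_of_le_right (le_max_right _ _)

lemma locEuclid (hs : SmoothMetric E M) (hM : BilipRiem E M) : LocEuclid E M := by
  intro x
  obtain ⟨K, hK, ρ, hρ, h⟩ := chart_bilip hs hM x
  exact ⟨extChartAt 𝓘(ℝ, E) x, K, ρ, hK, hρ, h,
    extChartAt_image_nhds_mem_nhds_of_boundaryless (ball_mem_nhds x hρ)⟩

/-- a smooth embedding is locally bi-Lipschitz -/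
lemma emb_local [FiniteDimensional ℝ E] (hs : SmoothMetric E M) (hM : BilipRiem E M)
    {Φ : M → EuclideanSpace ℝ (Fin N)} (hΦ : SmoothEmb E Φ) (x : M) : ∃ C : ℝ, ∀ᶠ q in 𝓝 (x, x), dist q.1 q.2 ≤ C * ‖Φ q.1 - Φ q.2‖ ∧
      ‖Φ q.1 - Φ q.2‖ ≤ C * dist q.1 q.2 := by
  obtain ⟨K, hK, ρ, hρ, h⟩ := chart_bilip hs hM x
  set φ := extChartAt 𝓘(ℝ, E) x with hφ
  set f : E → EuclideanSpace ℝ (Fin N) := Φ ∘ φ.symm with hf
  have hfd : ContDiffAt ℝ ∞ f (φ x) := by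
    have := (contMDiffAt_iff.mp (hΦ.1 x)).2
    rw [← contDiffWithinAt_univ]
    simpa [hf, hφ] using this
  have hstrict : HasStrictFDerivAt f (fderiv ℝ f (φ x)) (φ x) :=
    hfd.hasStrictFDerivAt (by simp)
  have hinj : Function.Injective (fderiv ℝ f (φ x)) := by
    have h1 := hΦ.2.2 x
    have h2 : MDifferentiableAt 𝓘(ℝ, E) 𝓘(ℝ, EuclideanSpace ℝ (Fin N)) Φ x :=
      (hΦ.1 x).mdifferentiableAt (by simp)
    rw [mfderiv, if_pos h2] at h1
    simp only [writtenInExtChartAt, extChartAt_model_space_eq_id, modelWithCornersSelf_coe,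
      range_id, fderivWithin_univ] at h1
    exact h1
  obtain ⟨κ, hκ, hanti⟩ := LinearMap.exists_antilipschitzWith
    (fderiv ℝ f (φ x)).toLinearMap (LinearMap.ker_eq_bot.mpr hinj)
  have hκ' : (0 : ℝ) < κ := by exact_mod_cast hκ
  have hlower : ∀ v, ‖v‖ ≤ κ * ‖fderiv ℝ f (φ x) v‖ := by
    intro v
    have := hanti.le_mul_dist v 0
    simpa [dist_eq_norm] using this
  have hsmall : ∀ᶠ p in 𝓝 (φ x, φ x), ‖f p.1 - f p.2 - fderiv ℝ f (φ x) (p.1 - p.2)‖ ≤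
      (1 / (2 * κ)) * ‖p.1 - p.2‖ := by
    have := hstrict.isLittleO
    exact this.bound (by positivity)
  have hcont : Tendsto (fun q : M × M => (φ q.1, φ q.2)) (𝓝 (x, x)) (𝓝 (φ x, φ x)) := by
    rw [nhds_prod_eq, nhds_prod_eq]
    have hc : Tendsto φ (𝓝 x) (𝓝 (φ x)) := continuousAt_extChartAt x
    exact hc.prodMap hc
  have hev1 := hcont.eventually hsmall
  have hev2 : ∀ᶠ q : M × M in 𝓝 (x, x), q.1 ∈ ball x ρ ∩ φ.source ∧
      q.2 ∈ ball x ρ ∩ φ.source := by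
    have hm : ball x ρ ∩ φ.source ∈ 𝓝 x :=
      inter_mem (ball_mem_nhds x hρ) (extChartAt_source_mem_nhds x)
    rw [nhds_prod_eq]
    exact prod_mem_prod hm hm
  refine ⟨max (2 * κ * K) ((‖fderiv ℝ f (φ x)‖ + 1 / (2 * κ)) * K), ?_⟩
  filter_upwards [hev1, hev2] with q h1 h2
  obtain ⟨⟨hq1, hq1'⟩, hq2, hq2'⟩ := h2
  have hf1 : f (φ q.1) = Φ q.1 := by
    simp only [hf, Function.comp_apply]
    rw [φ.left_inv hq1']
  have hf2 : f (φ q.2) = Φ q.2 := by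
    simp only [hf, Function.comp_apply]
    rw [φ.left_inv hq2']
  simp only [hf1, hf2] at h1
  obtain ⟨c1, c2⟩ := h q.1 hq1 q.2 hq2
  rw [dist_eq_norm (φ q.1)] at c1 c2
  set v := φ q.1 - φ q.2 with hv
  have hK0 : 0 < K := by linarith
  constructor
  · have e1 : ‖fderiv ℝ f (φ x) v‖ ≤ ‖Φ q.1 - Φ q.2‖ + (1 / (2 * κ)) * ‖v‖ := by
      calc ‖fderiv ℝ f (φ x) v‖ = ‖(Φ q.1 - Φ q.2) - (Φ q.1 - Φ q.2 - fderiv ℝ f (φ x) v)‖ := by
            congr 1; abel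
        _ ≤ ‖Φ q.1 - Φ q.2‖ + ‖Φ q.1 - Φ q.2 - fderiv ℝ f (φ x) v‖ := norm_sub_le _ _
        _ ≤ _ := by gcongr
    have e2 : ‖v‖ ≤ κ * ‖Φ q.1 - Φ q.2‖ + ‖v‖ / 2 := by
      calc ‖v‖ ≤ κ * ‖fderiv ℝ f (φ x) v‖ := hlower v
        _ ≤ κ * (‖Φ q.1 - Φ q.2‖ + (1 / (2 * κ)) * ‖v‖) := by gcongr
        _ = κ * ‖Φ q.1 - Φ q.2‖ + ‖v‖ / 2 := by
          field_simp
    calc dist q.1 q.2 ≤ K * ‖v‖ := c2
      _ ≤ K * (2 * κ * ‖Φ q.1 - Φ q.2‖) := by
        gcongr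
        linarith
      _ = (2 * κ * K) * ‖Φ q.1 - Φ q.2‖ := by ring
      _ ≤ _ := by
        gcongr
        exact le_max_left _ _
  · calc ‖Φ q.1 - Φ q.2‖ = ‖(Φ q.1 - Φ q.2 - fderiv ℝ f (φ x) v) + fderiv ℝ f (φ x) v‖ := by
          congr 1; abel
      _ ≤ ‖Φ q.1 - Φ q.2 - fderiv ℝ f (φ x) v‖ + ‖fderiv ℝ f (φ x) v‖ := norm_add_le _ _
      _ ≤ (1 / (2 * κ)) * ‖v‖ + ‖fderiv ℝ f (φ x)‖ * ‖v‖ := by
        gcongr
        exact ContinuousLinearMap.le_opNorm _ _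
      _ = (‖fderiv ℝ f (φ x)‖ + 1 / (2 * κ)) * ‖v‖ := by ring
      _ ≤ (‖fderiv ℝ f (φ x)‖ + 1 / (2 * κ)) * (K * dist q.1 q.2) := by gcongr
      _ = ((‖fderiv ℝ f (φ x)‖ + 1 / (2 * κ)) * K) * dist q.1 q.2 := by ring
      _ ≤ _ := by
        gcongr
        exact le_max_right _ _

lemma emb_global [CompactSpace M] [FiniteDimensional ℝ E] (hs : SmoothMetric E M)
    (hM : BilipRiem E M) {Φ : M → EuclideanSpace ℝ (Fin N)} (hΦ : SmoothEmb E Φ) :
    ∃ K L : ℝ, 0 ≤ K ∧ (∀ x y, dist x y ≤ K * ‖Φ x - Φ y‖) ∧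
      ∀ x y, ‖Φ x - Φ y‖ ≤ L * dist x y := by
  have hcont : Continuous Φ := hΦ.1.continuous
  obtain ⟨K, hK0, hK⟩ := global_of_local (Y := M × M) (F := fun q => dist q.1 q.2)
    (G := fun q => ‖Φ q.1 - Φ q.2‖) (fun q => norm_nonneg _) (by
      rintro ⟨x, y⟩
      rcases eq_or_ne x y with rfl | hxy
      · obtain ⟨C, hC⟩ := emb_local hs hM hΦ x
        exact ⟨C, hC.mono fun q hq => hq.1⟩
      · have hpos : 0 < ‖Φ x - Φ y‖ := by
          rw [norm_pos_iff, sub_ne_zero]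
          exact fun h => hxy (hΦ.2.1 h)
        refine ⟨(dist x y + 1) / (‖Φ x - Φ y‖ / 2), ?_⟩
        have h1 : ∀ᶠ q : M × M in 𝓝 (x, y), dist q.1 q.2 < dist x y + 1 := by
          have : ContinuousAt (fun q : M × M => dist q.1 q.2) (x, y) := by fun_prop
          exact this.eventually_lt_const (by simp)
        have h2 : ∀ᶠ q : M × M in 𝓝 (x, y), ‖Φ x - Φ y‖ / 2 < ‖Φ q.1 - Φ q.2‖ := by
          have : ContinuousAt (fun q : M × M => ‖Φ q.1 - Φ q.2‖) (x, y) := by fun_prop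
          exact this.eventually_const_lt (show ‖Φ x - Φ y‖ / 2 < ‖Φ x - Φ y‖ by linarith)
        filter_upwards [h1, h2] with q h3 h4
        rw [div_mul_eq_mul_div, le_div_iff₀ (by linarith)]
        have : 0 ≤ dist q.1 q.2 := dist_nonneg
        nlinarith)
  obtain ⟨L, hL0, hL⟩ := global_of_local (Y := M × M) (F := fun q => ‖Φ q.1 - Φ q.2‖)
    (G := fun q => dist q.1 q.2) (fun q => dist_nonneg) (by
      rintro ⟨x, y⟩
      rcases eq_or_ne x y with rfl | hxy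
      · obtain ⟨C, hC⟩ := emb_local hs hM hΦ x
        exact ⟨C, hC.mono fun q hq => hq.2⟩
      · have hpos : 0 < dist x y := dist_pos.mpr hxy
        refine ⟨(‖Φ x - Φ y‖ + 1) / (dist x y / 2), ?_⟩
        have h1 : ∀ᶠ q : M × M in 𝓝 (x, y), ‖Φ q.1 - Φ q.2‖ < ‖Φ x - Φ y‖ + 1 := by
          have : ContinuousAt (fun q : M × M => ‖Φ q.1 - Φ q.2‖) (x, y) := by fun_prop
          exact this.eventually_lt_const (by simp)
        have h2 : ∀ᶠ q : M × M in 𝓝 (x, y), dist x y / 2 < dist q.1 q.2 := by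
          have : ContinuousAt (fun q : M × M => dist q.1 q.2) (x, y) := by fun_prop
          exact this.eventually_const_lt (show dist x y / 2 < dist x y by linarith)
        filter_upwards [h1, h2] with q h3 h4
        rw [div_mul_eq_mul_div, le_div_iff₀ (by linarith)]
        have : 0 ≤ ‖Φ q.1 - Φ q.2‖ := norm_nonneg _
        nlinarith)
  exact ⟨K, L, hK0, fun x y => hK (x, y), fun x y => hL (x, y)⟩

end

end Pool.MP74738e
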