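import Mathlib
import Pool.Agent.Work.MP_74738e_an.Embed

/-!
# MP_74738e_an: the Hölder bound `(1 - α) dim X` is not generic (indeed never attained) in `𝓛_α`
when `α > (dim X - 1) / dim X`.
-/

namespace Pool.Agent.Work.MP_74738e_an.OldNotGeneric

open Pool.MP74738e
open Filter Topology Set Metric MeasureTheory Module Manifold Bundle
open scoped ENNReal NNReal ContDiff Manifold

/-- For every compact smooth manifold `M` of dimension `d = finrank ℝ E ≥ 2`, with a distance
bi-Lipschitz equivalent to a Riemannian distance, every smooth embedding `Φ` of `M` in `ℝ^N` and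
every `α ∈ ((d-1)/d, 1)`: every map `T ∈ 𝓛_α` satisfies an explicit upper bound for its upper metric
mean dimension which is strictly smaller than `(1 - α) d`; in particular the set of `T ∈ 𝓛_α` with
upper metric mean dimension `(1 - α) d` is not residual in `𝓛_α`. -/
theorem result {E : Type*} [NormedAddCommGroup E] [NormedSpace ℝ E] [FiniteDimensional ℝ E]
    (hd : 2 ≤ finrank ℝ E) {M : Type*} [MetricSpace M] [CompactSpace M] [Nonempty M]
    [ChartedSpace E M] [IsManifold 𝓘(ℝ, E) ∞ M]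
    [RiemannianBundle (fun x : M => TangentSpace 𝓘(ℝ, E) x)]
    (hs : SmoothMetric E M) (hM : BilipRiem E M)
    {N : ℕ} {Φ : M → EuclideanSpace ℝ (Fin N)} (hΦ : SmoothEmb E Φ)
    {α : ℝ} (hα : ((finrank ℝ E : ℝ) - 1) / finrank ℝ E < α) (hα1 : α < 1) :
    (∀ T ∈ LAlpha α Φ, upperMdim T.1 ≤ ((bigExp (finrank ℝ E) α / 2 : ℝ) : EReal)) ∧
    bigExp (finrank ℝ E) α / 2 < (1 - α) * finrank ℝ E ∧
    {T : LAlpha α Φ | upperMdim T.1.1 = (((1 - α) * finrank ℝ E : ℝ) : EReal)} ∉
      residual (LAlpha α Φ) := by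
  have hd' : (2 : ℝ) ≤ finrank ℝ E := by exact_mod_cast hd
  have hα0 : 0 < α := by
    refine lt_trans ?_ hα
    apply div_pos <;> linarith
  have hloc := locEuclid hs hM
  obtain ⟨A, hA⟩ := hloc.packing
  obtain ⟨lam, r0, hlam, hr0, hllc⟩ := hloc.llc
  obtain ⟨K, L, hK0, hK, hL⟩ := emb_global hs hM hΦ
  refine ⟨fun T hT => ?_, bigExp_lt (by omega) hα0 hα hα1, ?_⟩
  · exact mem_LAlpha_bound hA hlam hr0 hllc hα0 hα1 hK0 hK hL T hT
  · exact not_residual (by omega) hA hlam hr0 hllc hα0 hα hα1 hK0 hK hL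

end Pool.Agent.Work.MP_74738e_an.OldNotGeneric
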